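import Mathlib

/-!
# Graded algebras generated in degree one and their structure algebra

`R` is a commutative graded algebra, generated by its part `𝒱 1` of degree one. `Str 𝒱` is the Lie
algebra of the linear operators `Z` of `R` that are tangent to the cone of the vectors
`c • exp a`, `a` of degree one: all iterated commutators of `Z` with multiplications by elements of
degree one map `1` into degrees `0` and `1`.
-/

set_option autoImplicit false

namespace Pool.Agent.KS6_76.GWJ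

open DirectSum

variable {R : Type*} [CommRing R] [Algebra ℂ R]

/-- The commutator of the operator `Z` with the multiplication by `a`. -/
noncomputable def br (Z : Module.End ℂ R) (a : R) : Module.End ℂ R :=
  Z * LinearMap.mulLeft ℂ a - LinearMap.mulLeft ℂ a * Z

theorem br_apply (Z : Module.End ℂ R) (a x : R) : br Z a x = Z (a * x) - a * Z x := rfl

theorem br_add (Z Z' : Module.End ℂ R) (a : R) : br (Z + Z') a = br Z a + br Z' a := by
  unfold br; noncomm_ring

theorem br_smul (c : ℂ) (Z : Module.End ℂ R) (a : R) : br (c • Z) a = c • br Z a := by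
  unfold br; rw [smul_mul_assoc, mul_smul_comm, smul_sub]

theorem br_zero (a : R) : br (0 : Module.End ℂ R) a = 0 := by
  unfold br; simp

theorem br_mulLeft (b a : R) : br (LinearMap.mulLeft ℂ b) a = 0 := by
  ext x
  simp only [br_apply, LinearMap.mulLeft_apply, LinearMap.zero_apply]
  ring

theorem foldl_add (l : List R) (Z Z' : Module.End ℂ R) :
    l.foldl br (Z + Z') = l.foldl br Z + l.foldl br Z' := by
  induction l generalizing Z Z' with
  | nil => rfl
  | cons a l ih => rw [List.foldl_cons, List.foldl_cons, List.foldl_cons, br_add, ih]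

theorem foldl_smul (l : List R) (c : ℂ) (Z : Module.End ℂ R) :
    l.foldl br (c • Z) = c • l.foldl br Z := by
  induction l generalizing Z with
  | nil => rfl
  | cons a l ih => rw [List.foldl_cons, List.foldl_cons, br_smul, ih]

theorem foldl_zero (l : List R) : l.foldl br (0 : Module.End ℂ R) = 0 := by
  have := foldl_smul l 0 (0 : Module.End ℂ R)
  rwa [zero_smul, zero_smul] at this

variable (𝒱 : ℕ → Submodule ℂ R)

/-- The structure algebra. -/
noncomputable def Str : Submodule ℂ (Module.End ℂ R) where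
  carrier := {Z | ∀ l : List R, (∀ a ∈ l, a ∈ 𝒱 1) → l.foldl br Z 1 ∈ 𝒱 0 ⊔ 𝒱 1}
  add_mem' {Z Z'} h h' l hl := by
    rw [foldl_add, LinearMap.add_apply]
    exact Submodule.add_mem _ (h l hl) (h' l hl)
  zero_mem' l _ := by
    rw [foldl_zero, LinearMap.zero_apply]
    exact Submodule.zero_mem _
  smul_mem' c Z h l hl := by
    rw [foldl_smul, LinearMap.smul_apply]
    exact Submodule.smul_mem _ _ (h l hl)

variable {𝒱}

theorem mem_Str {Z : Module.End ℂ R} :
    Z ∈ Str 𝒱 ↔ ∀ l : List R, (∀ a ∈ l, a ∈ 𝒱 1) → l.foldl br Z 1 ∈ 𝒱 0 ⊔ 𝒱 1 := Iff.rfl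

theorem apply_one_mem {Z : Module.End ℂ R} (hZ : Z ∈ Str 𝒱) : Z 1 ∈ 𝒱 0 ⊔ 𝒱 1 :=
  hZ [] (by simp)

theorem br_mem {Z : Module.End ℂ R} (hZ : Z ∈ Str 𝒱) {a : R} (ha : a ∈ 𝒱 1) : br Z a ∈ Str 𝒱 := by
  intro l hl
  have := hZ (a :: l) (by
    intro b hb
    rcases List.mem_cons.1 hb with rfl | hb
    · exact ha
    · exact hl b hb)
  simpa using this

theorem mem_Str_of {Z : Module.End ℂ R} (h1 : Z 1 ∈ 𝒱 0 ⊔ 𝒱 1) (h2 : ∀ a ∈ 𝒱 1, br Z a ∈ Str 𝒱) :
    Z ∈ Str 𝒱 := by
  intro l hl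
  cases l with
  | nil => exact h1
  | cons a l =>
    rw [List.foldl_cons]
    exact h2 a (hl a (by simp)) l (fun b hb => hl b (by simp [hb]))

theorem mulLeft_mem {b : R} (hb : b ∈ 𝒱 0 ⊔ 𝒱 1) : LinearMap.mulLeft ℂ b ∈ Str 𝒱 := by
  refine mem_Str_of ?_ fun a _ => ?_
  · rw [LinearMap.mulLeft_apply, mul_one]; exact hb
  · rw [br_mulLeft]; exact Submodule.zero_mem _

section comm

variable [GradedAlgebra 𝒱]

/-- The structure algebra is closed under commutators. -/
theorem comm_mem (h0 : 𝒱 0 = Submodule.span ℂ {1}) {X Y : Module.End ℂ R} (hX : X ∈ Str 𝒱)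
    (hY : Y ∈ Str 𝒱) : X * Y - Y * X ∈ Str 𝒱 := by
  have key : ∀ X ∈ Str 𝒱, ∀ Y ∈ Str 𝒱, (X * Y - Y * X) 1 ∈ 𝒱 0 ⊔ 𝒱 1 := by
    intro X hX Y hY
    obtain ⟨x0, hx0, x1, hx1, hx⟩ := Submodule.mem_sup.1 (apply_one_mem hX)
    obtain ⟨y0, hy0, y1, hy1, hy⟩ := Submodule.mem_sup.1 (apply_one_mem hY)
    rw [h0] at hx0 hy0
    obtain ⟨α, rfl⟩ := Submodule.mem_span_singleton.1 hx0
    obtain ⟨β, rfl⟩ := Submodule.mem_span_singleton.1 hy0
    have e1 : X y1 = y1 * X 1 + br X y1 1 := by rw [br_apply, mul_one]; ring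
    have e2 : Y x1 = x1 * Y 1 + br Y x1 1 := by rw [br_apply, mul_one]; ring
    have e3 : (X * Y - Y * X) 1 = br X y1 1 - br Y x1 1 := by
      rw [LinearMap.sub_apply, Module.End.mul_apply, Module.End.mul_apply, ← hx, ← hy, map_add,
        map_add, map_smul, map_smul, e1, e2, ← hx, ← hy]
      simp only [mul_add, smul_add, mul_smul_comm, mul_one]
      rw [smul_comm β α, mul_comm y1 x1]
      abel
    rw [e3]
    exact Submodule.sub_mem _ (apply_one_mem (br_mem hX hy1)) (apply_one_mem (br_mem hY hx1))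
  have main : ∀ l : List R, (∀ a ∈ l, a ∈ 𝒱 1) → ∀ X ∈ Str 𝒱, ∀ Y ∈ Str 𝒱,
      l.foldl br (X * Y - Y * X) 1 ∈ 𝒱 0 ⊔ 𝒱 1 := by
    intro l
    induction l with
    | nil => exact fun _ X hX Y hY => key X hX Y hY
    | cons a l ih =>
      intro hl X hX Y hY
      have hl' : ∀ b ∈ l, b ∈ 𝒱 1 := fun b hb => hl b (by simp [hb])
      have ha : a ∈ 𝒱 1 := hl a (by simp)
      have e : br (X * Y - Y * X) a =
          (br X a * Y - Y * br X a) + (X * br Y a - br Y a * X) := by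
        unfold br
        simp only [mul_sub, sub_mul, mul_assoc]
        abel
      rw [List.foldl_cons, e, foldl_add, LinearMap.add_apply]
      exact Submodule.add_mem _ (ih hl' _ (br_mem hX ha) _ hY) (ih hl' _ hX _ (br_mem hY ha))
  exact fun l hl => main l hl X hX Y hY

end comm

/-! ### Homogeneous operators -/

variable (𝒱)

/-- The degree `i` part, for an integer `i`. -/
def zpart : ℤ → Submodule ℂ R
  | Int.ofNat m => 𝒱 m
  | Int.negSucc _ => ⊥

/-- `Z` is homogeneous of degree `j`. -/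
def IsHom (j : ℤ) (Z : Module.End ℂ R) : Prop :=
  ∀ (k : ℕ), ∀ x ∈ 𝒱 k, Z x ∈ zpart 𝒱 (k + j)

variable {𝒱}

@[simp] theorem zpart_natCast (m : ℕ) : zpart 𝒱 (m : ℤ) = 𝒱 m := rfl

theorem zpart_neg {i : ℤ} (hi : i < 0) : zpart 𝒱 i = ⊥ := by
  match i, hi with
  | Int.negSucc _, _ => rfl

theorem zpart_nonneg {i : ℤ} (hi : 0 ≤ i) : zpart 𝒱 i = 𝒱 i.toNat := by
  obtain ⟨m, rfl⟩ := Int.eq_ofNat_of_zero_le hi
  rfl

section graded

variable [GradedAlgebra 𝒱]

theorem mul_mem_zpart {a y : R} (ha : a ∈ 𝒱 1) {i : ℤ} (hy : y ∈ zpart 𝒱 i) :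
    a * y ∈ zpart 𝒱 (i + 1) := by
  rcases lt_or_ge i 0 with hi | hi
  · rw [zpart_neg hi, Submodule.mem_bot] at hy
    rw [hy, mul_zero]; exact Submodule.zero_mem _
  · obtain ⟨m, rfl⟩ := Int.eq_ofNat_of_zero_le hi
    have : a * y ∈ 𝒱 (1 + m) := SetLike.mul_mem_graded ha hy
    rw [add_comm] at this
    exact this

theorem IsHom.apply_zpart {j : ℤ} {Z : Module.End ℂ R} (hZ : IsHom 𝒱 j Z) {i : ℤ} {y : R}
    (hy : y ∈ zpart 𝒱 i) : Z y ∈ zpart 𝒱 (i + j) := by
  rcases lt_or_ge i 0 with hi | hi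
  · rw [zpart_neg hi, Submodule.mem_bot] at hy
    rw [hy, map_zero]; exact Submodule.zero_mem _
  · obtain ⟨m, rfl⟩ := Int.eq_ofNat_of_zero_le hi
    exact hZ m y hy

theorem IsHom.br {j : ℤ} {Z : Module.End ℂ R} (hZ : IsHom 𝒱 j Z) {a : R} (ha : a ∈ 𝒱 1) :
    IsHom 𝒱 (j + 1) (br Z a) := by
  intro k x hx
  rw [br_apply]
  refine Submodule.sub_mem _ ?_ ?_
  · have h1 : a * x ∈ 𝒱 (1 + k) := SetLike.mul_mem_graded ha hx
    have h2 := hZ (1 + k) (a * x) h1
    have : ((1 + k : ℕ) : ℤ) + j = k + (j + 1) := by push_cast; ring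
    rwa [this] at h2
  · have h2 := mul_mem_zpart ha (hZ k x hx)
    rwa [add_assoc] at h2

theorem IsHom.comm {i j : ℤ} {X Y : Module.End ℂ R} (hX : IsHom 𝒱 i X) (hY : IsHom 𝒱 j Y) :
    IsHom 𝒱 (i + j) (X * Y - Y * X) := by
  intro k x hx
  rw [LinearMap.sub_apply, Module.End.mul_apply, Module.End.mul_apply]
  refine Submodule.sub_mem _ ?_ ?_
  · have := hX.apply_zpart (hY k x hx)
    rwa [add_assoc, add_comm j i] at this
  · have := hY.apply_zpart (hX k x hx)
    rwa [add_assoc] at this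

theorem isHom_mulLeft {a : R} (ha : a ∈ 𝒱 1) : IsHom 𝒱 1 (LinearMap.mulLeft ℂ a) := by
  intro k x hx
  exact mul_mem_zpart ha (by exact hx)

variable (𝒱)

/-- The projection to degree `i`, for an integer `i`. -/
noncomputable def zproj : ℤ → Module.End ℂ R
  | Int.ofNat m => GradedAlgebra.proj 𝒱 m
  | Int.negSucc _ => 0

/-- The component of degree `j` of an operator. -/
noncomputable def cp (j : ℤ) (Z : Module.End ℂ R) : Module.End ℂ R :=
  (DirectSum.toModule ℂ ℕ R fun k => zproj 𝒱 (k + j) ∘ₗ Z ∘ₗ (𝒱 k).subtype) ∘ₗ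
    (decomposeLinearEquiv 𝒱).toLinearMap

variable {𝒱}

theorem zproj_mem (i : ℤ) (y : R) : zproj 𝒱 i y ∈ zpart 𝒱 i := by
  match i with
  | Int.ofNat m => exact SetLike.coe_mem _
  | Int.negSucc _ => exact Submodule.zero_mem _

theorem zproj_natCast (m : ℕ) (y : R) : zproj 𝒱 (m : ℤ) y = (decompose 𝒱 y m : R) := rfl

theorem zproj_neg {i : ℤ} (hi : i < 0) (y : R) : zproj 𝒱 i y = 0 := by
  match i, hi with
  | Int.negSucc _, _ => rfl

theorem zproj_mul {a : R} (ha : a ∈ 𝒱 1) (i : ℤ) (y : R) :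
    zproj 𝒱 (i + 1) (a * y) = a * zproj 𝒱 i y := by
  rcases lt_or_ge i 0 with hi | hi
  · rw [zproj_neg hi, mul_zero]
    rcases lt_or_ge (i + 1) 0 with hi' | hi'
    · rw [zproj_neg hi']
    · have : i + 1 = ((0 : ℕ) : ℤ) := by push_cast; omega
      rw [this, zproj_natCast]
      exact coe_decompose_mul_of_left_mem_of_not_le 𝒱 ha (by norm_num)
  · obtain ⟨m, rfl⟩ := Int.eq_ofNat_of_zero_le hi
    have : (m : ℤ) + 1 = ((1 + m : ℕ) : ℤ) := by push_cast; ring
    rw [this, zproj_natCast, zproj_natCast]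
    exact coe_decompose_mul_add_of_left_mem 𝒱 ha

theorem cp_apply {j : ℤ} {Z : Module.End ℂ R} {k : ℕ} {x : R} (hx : x ∈ 𝒱 k) :
    cp 𝒱 j Z x = zproj 𝒱 (k + j) (Z x) := by
  unfold cp
  rw [LinearMap.comp_apply, LinearEquiv.coe_coe, decomposeLinearEquiv_apply, decompose_of_mem _ hx]
  erw [DirectSum.toModule_lof]
  rfl

theorem cp_isHom (j : ℤ) (Z : Module.End ℂ R) : IsHom 𝒱 j (cp 𝒱 j Z) := by
  intro k x hx
  rw [cp_apply hx]
  exact zproj_mem _ _

theorem ext_graded {X Y : Module.End ℂ R} (h : ∀ k, ∀ x ∈ 𝒱 k, X x = Y x) : X = Y := by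
  refine decompose_lhom_ext (M := R) 𝒱 fun k => ?_
  ext x
  exact h k x x.2

theorem br_cp (j : ℤ) (Z : Module.End ℂ R) {a : R} (ha : a ∈ 𝒱 1) :
    br (cp 𝒱 j Z) a = cp 𝒱 (j + 1) (br Z a) := by
  refine ext_graded (𝒱 := 𝒱) fun k x hx => ?_
  have h1 : a * x ∈ 𝒱 (1 + k) := SetLike.mul_mem_graded ha hx
  rw [br_apply, cp_apply h1, cp_apply hx, cp_apply hx, br_apply, map_sub, ← zproj_mul ha]
  have e1 : ((1 + k : ℕ) : ℤ) + j = k + (j + 1) := by push_cast; ring
  have e2 : (k : ℤ) + j + 1 = k + (j + 1) := by ring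
  rw [e1, e2]

theorem zproj_mem_sup (i : ℤ) {y : R} (hy : y ∈ 𝒱 0 ⊔ 𝒱 1) : zproj 𝒱 i y ∈ 𝒱 0 ⊔ 𝒱 1 := by
  obtain ⟨y0, hy0, y1, hy1, rfl⟩ := Submodule.mem_sup.1 hy
  rcases lt_or_ge i 0 with hi | hi
  · rw [zproj_neg hi]; exact Submodule.zero_mem _
  · obtain ⟨m, rfl⟩ := Int.eq_ofNat_of_zero_le hi
    change zproj 𝒱 (m : ℤ) (y0 + y1) ∈ _
    rw [map_add, zproj_natCast, zproj_natCast]
    refine Submodule.add_mem _ ?_ ?_
    · by_cases hm : 0 = m
      · subst hm
        rw [decompose_of_mem_same _ hy0]; exact Submodule.mem_sup_left hy0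
      · rw [decompose_of_mem_ne _ hy0 hm]; exact Submodule.zero_mem _
    · by_cases hm : 1 = m
      · subst hm
        rw [decompose_of_mem_same _ hy1]; exact Submodule.mem_sup_right hy1
      · rw [decompose_of_mem_ne _ hy1 hm]; exact Submodule.zero_mem _

/-- The components of an element of the structure algebra belong to it. -/
theorem cp_mem (j : ℤ) {Z : Module.End ℂ R} (hZ : Z ∈ Str 𝒱) : cp 𝒱 j Z ∈ Str 𝒱 := by
  have main : ∀ l : List R, (∀ a ∈ l, a ∈ 𝒱 1) → ∀ (j : ℤ) (Z : Module.End ℂ R), Z ∈ Str 𝒱 →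
      l.foldl br (cp 𝒱 j Z) 1 ∈ 𝒱 0 ⊔ 𝒱 1 := by
    intro l
    induction l with
    | nil =>
      intro _ j Z hZ
      rw [List.foldl_nil, cp_apply (k := 0) (SetLike.one_mem_graded 𝒱)]
      exact zproj_mem_sup _ (apply_one_mem hZ)
    | cons a l ih =>
      intro hl j Z hZ
      have ha : a ∈ 𝒱 1 := hl a (by simp)
      rw [List.foldl_cons, br_cp j Z ha]
      exact ih (fun b hb => hl b (by simp [hb])) _ _ (br_mem hZ ha)
  exact fun l hl => main l hl j Z hZ

/-- An operator is the sum of its components. -/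
theorem sum_cp {n : ℕ} (htop : ∀ k, n < k → 𝒱 k = ⊥) (Z : Module.End ℂ R) :
    ∑ j ∈ Finset.Icc (-(n : ℤ)) n, cp 𝒱 j Z = Z := by
  refine ext_graded (𝒱 := 𝒱) fun k x hx => ?_
  rw [LinearMap.sum_apply, Finset.sum_congr rfl fun j _ => cp_apply hx]
  rcases lt_or_ge n k with hk | hk
  · rw [htop k hk, Submodule.mem_bot] at hx
    subst hx
    simp
  have h1 : ∑ i ∈ Finset.range (n + 1), (decompose 𝒱 (Z x) i : R) = Z x := by
    classical
    conv_rhs => rw [← DirectSum.sum_support_decompose 𝒱 (Z x)]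
    refine (Finset.sum_subset ?_ ?_).symm
    · intro i hi
      rw [Finset.mem_range]
      by_contra hlt
      have : (decompose 𝒱 (Z x) i : R) = 0 :=
        (Submodule.eq_bot_iff _).1 (htop i (by omega)) _ (SetLike.coe_mem _)
      rw [DFinsupp.mem_support_iff] at hi
      exact hi (Subtype.ext this)
    · intro i _ hi
      rw [DFinsupp.mem_support_iff, not_not] at hi
      rw [hi]; rfl
  have h2 : ∀ i ∈ Finset.range (n + 1), (decompose 𝒱 (Z x) i : R) =
      zproj 𝒱 (k + ((i : ℤ) - k)) (Z x) := by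
    intro i _
    have : (k : ℤ) + ((i : ℤ) - k) = (i : ℕ) := by ring
    rw [this, zproj_natCast]
  conv_rhs => rw [← h1]
  rw [Finset.sum_congr rfl h2]
  symm
  refine Finset.sum_of_injOn (fun i : ℕ => (i : ℤ) - k) ?_ ?_ ?_ ?_
  · intro i _ i' _ h
    have : (i : ℤ) - k = (i' : ℤ) - k := h
    omega
  · intro i hi
    simp only [Finset.coe_range, Set.mem_Iio, Finset.coe_Icc, Set.mem_Icc] at hi ⊢
    omega
  · intro j hj hj'
    rw [Finset.mem_Icc] at hj
    rcases lt_or_ge ((k : ℤ) + j) 0 with h | h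
    · rw [zproj_neg h]
    · obtain ⟨m, hm⟩ := Int.eq_ofNat_of_zero_le h
      rw [hm]
      rcases lt_or_ge n m with h' | h'
      · have := zproj_mem (𝒱 := 𝒱) (m : ℤ) (Z x)
        rw [zpart_natCast, htop m h', Submodule.mem_bot] at this
        exact this
      · exfalso
        apply hj'
        refine ⟨m, ?_, ?_⟩
        · simp only [Finset.coe_range, Set.mem_Iio]; omega
        · change (m : ℤ) - k = j
          omega
  · intro i _
    rfl

end graded

end Pool.Agent.KS6_76.GWJ
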