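import Pool.Agent.KS6_76.GWJ.Alg

/-!
# Hard Lefschetz for algebras that are semisimple over their structure algebra
-/

set_option autoImplicit false

namespace Pool.Agent.KS6_76.GWJ

open DirectSum

variable {R : Type*} [CommRing R] [Algebra ℂ R] {𝒱 : ℕ → Submodule ℂ R} [GradedAlgebra 𝒱] {n : ℕ}

/-- An operator that commutes with the multiplications by elements of degree one is the
multiplication by its value at `1`. -/
theorem eq_mulLeft (hgen : Algebra.adjoin ℂ (𝒱 1 : Set R) = ⊤) {Z : Module.End ℂ R}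
    (h : ∀ a ∈ 𝒱 1, br Z a = 0) : Z = LinearMap.mulLeft ℂ (Z 1) := by
  have key : ∀ r : R, ∀ x, Z (r * x) = r * Z x := by
    intro r
    have hr : r ∈ Algebra.adjoin ℂ (𝒱 1 : Set R) := by rw [hgen]; trivial
    induction hr using Algebra.adjoin_induction with
    | mem a ha =>
      intro x
      have := congrArg (fun f : Module.End ℂ R => f x) (h a ha)
      simp only [br_apply, LinearMap.zero_apply] at this
      exact sub_eq_zero.1 this
    | algebraMap c =>
      intro x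
      rw [← Algebra.smul_def, map_smul, Algebra.smul_def]
    | add a b _ _ iha ihb =>
      intro x
      rw [add_mul, map_add, iha, ihb, add_mul]
    | mul a b _ _ iha ihb =>
      intro x
      rw [mul_assoc, iha, ihb, mul_assoc]
  ext x
  rw [LinearMap.mulLeft_apply, ← mul_one x, key, mul_one, mul_comm]

theorem eq_zero_of_mem_sup_of_two_le {j : ℕ} (hj : 2 ≤ j) {x : R} (hx : x ∈ 𝒱 j)
    (hx' : x ∈ 𝒱 0 ⊔ 𝒱 1) : x = 0 := by
  obtain ⟨x0, hx0, x1, hx1, rfl⟩ := Submodule.mem_sup.1 hx'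
  have h1 := decompose_of_mem_same 𝒱 hx
  rw [decompose_add] at h1
  have e0 : (decompose 𝒱 x0 j : R) = 0 := decompose_of_mem_ne 𝒱 hx0 (by omega)
  have e1 : (decompose 𝒱 x1 j : R) = 0 := decompose_of_mem_ne 𝒱 hx1 (by omega)
  rw [DirectSum.add_apply, Submodule.coe_add, e0, e1, add_zero] at h1
  exact h1.symm

theorem mem_one_of_mem_sup {x : R} (hx : x ∈ 𝒱 0 ⊔ 𝒱 1) (h : (decompose 𝒱 x 0 : R) = 0) :
    x ∈ 𝒱 1 := by
  obtain ⟨x0, hx0, x1, hx1, rfl⟩ := Submodule.mem_sup.1 hx
  rw [decompose_add, DirectSum.add_apply, Submodule.coe_add, decompose_of_mem_same 𝒱 hx0,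
    decompose_of_mem_ne 𝒱 hx1 (by norm_num), add_zero] at h
  rw [h, zero_add]
  exact hx1

/-- Elements of the structure algebra of degree `≥ 2` vanish. -/
theorem eq_zero_of_two_le (hgen : Algebra.adjoin ℂ (𝒱 1 : Set R) = ⊤)
    (htop : ∀ k, n < k → 𝒱 k = ⊥) : ∀ (d : ℕ) (j : ℕ), n + 1 ≤ j + d → 2 ≤ j →
      ∀ Z ∈ Str 𝒱, IsHom 𝒱 (j : ℤ) Z → Z = 0 := by
  intro d
  induction d with
  | zero =>
    intro j hj _ Z _ hh
    refine ext_graded (𝒱 := 𝒱) fun k x hx => ?_
    have h1 := hh k x hx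
    have : (k : ℤ) + j = ((k + j : ℕ) : ℤ) := by push_cast; ring
    rw [this, zpart_natCast, htop (k + j) (by omega), Submodule.mem_bot] at h1
    rw [h1, LinearMap.zero_apply]
  | succ d ih =>
    intro j hj hj2 Z hZ hh
    have h1 : ∀ a ∈ 𝒱 1, br Z a = 0 := by
      intro a ha
      refine ih (j + 1) (by omega) (by omega) _ (br_mem hZ ha) ?_
      have := hh.br ha
      push_cast
      exact this
    have h2 : Z 1 = 0 := by
      refine eq_zero_of_mem_sup_of_two_le hj2 ?_ (apply_one_mem hZ)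
      have := hh 0 1 (SetLike.one_mem_graded 𝒱)
      rwa [Nat.cast_zero, zero_add, zpart_natCast] at this
    rw [eq_mulLeft hgen h1, h2]
    ext x
    simp

/-- Elements of the structure algebra of degree one are multiplications. -/
theorem eq_mulLeft_of_one (hgen : Algebra.adjoin ℂ (𝒱 1 : Set R) = ⊤)
    (htop : ∀ k, n < k → 𝒱 k = ⊥) {Z : Module.End ℂ R} (hZ : Z ∈ Str 𝒱) (hh : IsHom 𝒱 1 Z) :
    Z = LinearMap.mulLeft ℂ (Z 1) ∧ Z 1 ∈ 𝒱 1 := by
  refine ⟨eq_mulLeft hgen fun a ha => ?_, ?_⟩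
  · refine eq_zero_of_two_le hgen htop (n + 1) 2 (by omega) le_rfl _ (br_mem hZ ha) ?_
    have := hh.br ha
    exact this
  · have := hh 0 1 (SetLike.one_mem_graded 𝒱)
    exact this

/-! ### The Euler operator -/

variable (𝒱) in
/-- The operator with eigenvalue `k` on the part of degree `k`. -/
noncomputable def euler : Module.End ℂ R :=
  (DirectSum.toModule ℂ ℕ R fun k => (k : ℂ) • (𝒱 k).subtype) ∘ₗ
    (decomposeLinearEquiv 𝒱).toLinearMap

theorem euler_apply {k : ℕ} {x : R} (hx : x ∈ 𝒱 k) : euler 𝒱 x = (k : ℂ) • x := by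
  unfold euler
  rw [LinearMap.comp_apply, LinearEquiv.coe_coe, decomposeLinearEquiv_apply, decompose_of_mem _ hx]
  erw [DirectSum.toModule_lof]
  rfl

theorem br_euler {a : R} (ha : a ∈ 𝒱 1) : br (euler 𝒱) a = LinearMap.mulLeft ℂ a := by
  refine ext_graded (𝒱 := 𝒱) fun k x hx => ?_
  have h1 : a * x ∈ 𝒱 (1 + k) := SetLike.mul_mem_graded ha hx
  rw [br_apply, euler_apply h1, euler_apply hx, LinearMap.mulLeft_apply, mul_smul_comm]
  push_cast
  rw [add_smul, one_smul, add_sub_cancel_right]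

theorem euler_mem : euler 𝒱 ∈ Str 𝒱 := by
  refine mem_Str_of ?_ fun a ha => ?_
  · rw [euler_apply (k := 0) (SetLike.one_mem_graded 𝒱), Nat.cast_zero, zero_smul]
    exact Submodule.zero_mem _
  · rw [br_euler ha]
    exact mulLeft_mem (Submodule.mem_sup_right ha)

theorem euler_one : euler 𝒱 (1 : R) = 0 := by
  rw [euler_apply (k := 0) (SetLike.one_mem_graded 𝒱), Nat.cast_zero, zero_smul]

theorem coe_decompose_euler (y : R) (k : ℕ) :
    (decompose 𝒱 (euler 𝒱 y) k : R) = (k : ℂ) • (decompose 𝒱 y k : R) := by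
  have : (GradedAlgebra.proj 𝒱 k) ∘ₗ euler 𝒱 = (k : ℂ) • GradedAlgebra.proj 𝒱 k := by
    refine ext_graded (𝒱 := 𝒱) fun i x hx => ?_
    rw [LinearMap.comp_apply, euler_apply hx, map_smul, LinearMap.smul_apply]
    by_cases hik : i = k
    · subst hik; rfl
    · have : GradedAlgebra.proj 𝒱 k x = 0 := decompose_of_mem_ne 𝒱 hx hik
      rw [this, smul_zero, smul_zero]
  exact congrArg (fun f : R →ₗ[ℂ] R => f y) this

theorem eq_zero_of_euler {y : R} (h : euler 𝒱 y = 0) (h0 : (decompose 𝒱 y 0 : R) = 0) : y = 0 := by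
  have : decompose 𝒱 y = 0 := by
    refine DFinsupp.ext fun k => Subtype.ext ?_
    rcases Nat.eq_zero_or_pos k with hk | hk
    · subst hk; exact h0
    · have h1 := coe_decompose_euler (𝒱 := 𝒱) y k
      rw [h, decompose_zero] at h1
      have h2 : (k : ℂ) ≠ 0 := by exact_mod_cast hk.ne'
      have h3 : (k : ℂ) • (decompose 𝒱 y k : R) = 0 := h1.symm
      exact (smul_eq_zero.1 h3).resolve_left h2
  exact (decompose 𝒱).injective (by rw [this, decompose_zero])

/-! ### The socle lemma -/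

variable (𝒱) in
/-- `R` is a semisimple module over its structure algebra. -/
def SS : Prop :=
  ∀ N : Submodule ℂ R, (∀ Z ∈ Str 𝒱, ∀ x ∈ N, Z x ∈ N) →
    ∃ N' : Submodule ℂ R, (∀ Z ∈ Str 𝒱, ∀ x ∈ N', Z x ∈ N') ∧ IsCompl N N'

/-- If `R` is semisimple over its structure algebra, an element of positive degree that is killed
by the elements of negative degree of the structure algebra is zero. -/
theorem socle (h0 : 𝒱 0 = Submodule.span ℂ {1}) (hgen : Algebra.adjoin ℂ (𝒱 1 : Set R) = ⊤)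
    (htop : ∀ k, n < k → 𝒱 k = ⊥) (hSS : SS 𝒱) {k : ℕ} (hk : 1 ≤ k) {x : R} (hx : x ∈ 𝒱 k)
    (hU : ∀ p : ℕ, 1 ≤ p → ∀ Z ∈ Str 𝒱, IsHom 𝒱 (-(p : ℤ)) Z → Z x = 0) : x = 0 := by
  let U : Set R := {u | u ∈ 𝒱 k ∧ ∀ p : ℕ, 1 ≤ p → ∀ Z ∈ Str 𝒱, IsHom 𝒱 (-(p : ℤ)) Z → Z u = 0}
  let I : Ideal R := Ideal.span U
  have hUI : ∀ u ∈ U, u ∈ I := fun u hu => Ideal.subset_span hu
  -- homogeneous elements map `U` into `I`
  have step1 : ∀ j : ℤ, ∀ Z ∈ Str 𝒱, IsHom 𝒱 j Z → ∀ u ∈ U, Z u ∈ I := by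
    intro j Z hZ hh u hu
    rcases lt_trichotomy j 0 with hj | hj | hj
    · obtain ⟨p, hp⟩ := Int.eq_ofNat_of_zero_le (a := -j) (by omega)
      have hp' : j = -(p : ℤ) := by omega
      rw [hu.2 p (by omega) Z hZ (hp' ▸ hh)]
      exact I.zero_mem
    · subst hj
      apply hUI
      refine ⟨?_, ?_⟩
      · have := hh k u hu.1
        rwa [add_zero, zpart_natCast] at this
      · intro p hp W hW hWh
        have h1 := hu.2 p hp _ (comm_mem h0 hW hZ) (by
          have := hWh.comm hh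
          rwa [add_zero] at this)
        rw [LinearMap.sub_apply, Module.End.mul_apply, Module.End.mul_apply,
          hu.2 p hp W hW hWh, map_zero, sub_zero] at h1
        exact h1
    · rcases eq_or_lt_of_le (show (1 : ℤ) ≤ j by omega) with h1 | h1
      · subst h1
        rw [(eq_mulLeft_of_one hgen htop hZ hh).1, LinearMap.mulLeft_apply]
        exact I.mul_mem_left _ (hUI u hu)
      · obtain ⟨p, hp⟩ := Int.eq_ofNat_of_zero_le (a := j) (by omega)
        subst hp
        rw [eq_zero_of_two_le hgen htop (n + 1) p (by omega) (by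
          have : (1 : ℤ) < (p : ℤ) := h1
          omega) Z hZ hh]
        exact I.zero_mem
  have step2 : ∀ Z ∈ Str 𝒱, ∀ u ∈ U, Z u ∈ I := by
    intro Z hZ u hu
    rw [← sum_cp htop Z, LinearMap.sum_apply]
    exact I.sum_mem fun j _ => step1 j _ (cp_mem j hZ) (cp_isHom j Z) u hu
  -- the elements that `Str` maps into `I`
  have step3 : ∀ r : R, ∀ y ∈ I, (∀ Z ∈ Str 𝒱, Z y ∈ I) → ∀ Z ∈ Str 𝒱, Z (r * y) ∈ I := by
    intro r
    have hr : r ∈ Algebra.adjoin ℂ (𝒱 1 : Set R) := by rw [hgen]; trivial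
    induction hr using Algebra.adjoin_induction with
    | mem a ha =>
      intro y hy hyZ Z hZ
      have : Z (a * y) = a * Z y + br Z a y := by rw [br_apply]; ring
      rw [this]
      exact I.add_mem (I.mul_mem_left _ (hyZ Z hZ)) (hyZ _ (br_mem hZ ha))
    | algebraMap c =>
      intro y hy hyZ Z hZ
      rw [← Algebra.smul_def, map_smul, Algebra.smul_def]
      exact I.mul_mem_left _ (hyZ Z hZ)
    | add a b _ _ iha ihb =>
      intro y hy hyZ Z hZ
      rw [add_mul, map_add]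
      exact I.add_mem (iha y hy hyZ Z hZ) (ihb y hy hyZ Z hZ)
    | mul a b _ _ iha ihb =>
      intro y hy hyZ Z hZ
      rw [mul_assoc]
      exact iha (b * y) (I.mul_mem_left _ hy) (ihb y hy hyZ) Z hZ
  have step4 : ∀ y ∈ I, ∀ Z ∈ Str 𝒱, Z y ∈ I := by
    intro y hy
    refine Submodule.span_induction (p := fun y _ => ∀ Z ∈ Str 𝒱, Z y ∈ I) ?_ ?_ ?_ ?_ hy
    · exact fun u hu Z hZ => step2 Z hZ u hu
    · intro Z _; rw [map_zero]; exact I.zero_mem
    · intro a b _ _ ha hb Z hZ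
      rw [map_add]; exact I.add_mem (ha Z hZ) (hb Z hZ)
    · intro r y hy hyZ Z hZ
      rw [smul_eq_mul]
      exact step3 r y hy hyZ Z hZ
  -- the ideal has no part of degree zero
  have step5 : ∀ y ∈ I, (decompose 𝒱 y 0 : R) = 0 := by
    intro y hy
    refine Submodule.span_induction (p := fun y _ => (decompose 𝒱 y 0 : R) = 0) ?_ ?_ ?_ ?_ hy
    · intro u hu
      exact decompose_of_mem_ne 𝒱 hu.1 (by omega)
    · rw [decompose_zero]; rfl
    · intro a b _ _ ha hb
      rw [decompose_add, DirectSum.add_apply, Submodule.coe_add, ha, hb, add_zero]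
    · intro r y _ hy
      rw [smul_eq_mul]
      have := map_mul (GradedRing.projZeroRingHom 𝒱) r y
      have e1 : GradedRing.projZeroRingHom 𝒱 (r * y) = (decompose 𝒱 (r * y) 0 : R) := rfl
      have e2 : GradedRing.projZeroRingHom 𝒱 y = (decompose 𝒱 y 0 : R) := rfl
      rw [e1, e2, hy, mul_zero] at this
      exact this
  -- the complement
  obtain ⟨N', hN', hcompl⟩ := hSS (I.restrictScalars ℂ) (fun Z hZ y hy => step4 y hy Z hZ)
  have h1top : (1 : R) ∈ (I.restrictScalars ℂ) ⊔ N' := by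
    rw [hcompl.sup_eq_top]; trivial
  obtain ⟨y, hy, y', hy', hyy⟩ := Submodule.mem_sup.1 h1top
  have hy : y ∈ I := hy
  have hE : euler 𝒱 y + euler 𝒱 y' = 0 := by
    rw [← map_add, hyy, euler_one]
  have hEy : euler 𝒱 y = 0 := by
    have h1 : euler 𝒱 y ∈ I.restrictScalars ℂ := step4 y hy _ euler_mem
    have h2 : euler 𝒱 y ∈ N' := by
      rw [eq_neg_of_add_eq_zero_left hE]
      exact N'.neg_mem (hN' _ euler_mem y' hy')
    exact Submodule.disjoint_def.1 hcompl.disjoint _ h1 h2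
  have hy0 : y = 0 := eq_zero_of_euler hEy (step5 y hy)
  have h1N : (1 : R) ∈ N' := by
    rw [← hyy, hy0, zero_add]; exact hy'
  have hall : ∀ r : R, ∀ z ∈ N', r * z ∈ N' := by
    intro r
    have hr : r ∈ Algebra.adjoin ℂ (𝒱 1 : Set R) := by rw [hgen]; trivial
    induction hr using Algebra.adjoin_induction with
    | mem a ha => exact fun z hz => hN' _ (mulLeft_mem (Submodule.mem_sup_right ha)) z hz
    | algebraMap c =>
      intro z hz
      rw [← Algebra.smul_def]
      exact N'.smul_mem _ hz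
    | add a b _ _ iha ihb =>
      intro z hz
      rw [add_mul]; exact N'.add_mem (iha z hz) (ihb z hz)
    | mul a b _ _ iha ihb =>
      intro z hz
      rw [mul_assoc]; exact iha _ (ihb z hz)
  have hxI : x ∈ I.restrictScalars ℂ := hUI x ⟨hx, hU⟩
  have hxN : x ∈ N' := by
    have := hall x 1 h1N
    rwa [mul_one] at this
  exact Submodule.disjoint_def.1 hcompl.disjoint _ hxI hxN

end Pool.Agent.KS6_76.GWJ
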