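import Pool.Agent.KS6_76.GWJ.Alg2

/-!
# Hard Lefschetz and the Jordan structure
-/

set_option autoImplicit false

namespace Pool.Agent.KS6_76.GWJ

open DirectSum

variable {R : Type*} [CommRing R] [Algebra ℂ R] {𝒱 : ℕ → Submodule ℂ R} [GradedAlgebra 𝒱] {n : ℕ}

/-- The iterated commutators of `Z` with the multiplication by `w`. -/
noncomputable def bi (w : R) : ℕ → Module.End ℂ R → Module.End ℂ R
  | 0, Z => Z
  | i + 1, Z => br (bi w i Z) w

theorem bi_zero (w : R) (Z : Module.End ℂ R) : bi w 0 Z = Z := rfl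

theorem bi_succ (w : R) (i : ℕ) (Z : Module.End ℂ R) : bi w (i + 1) Z = br (bi w i Z) w := rfl

theorem bi_mem {w : R} (hw : w ∈ 𝒱 1) {Z : Module.End ℂ R} (hZ : Z ∈ Str 𝒱) (i : ℕ) :
    bi w i Z ∈ Str 𝒱 := by
  induction i with
  | zero => exact hZ
  | succ i ih => exact br_mem ih hw

theorem bi_isHom {w : R} (hw : w ∈ 𝒱 1) {Z : Module.End ℂ R} {j : ℤ} (hZ : IsHom 𝒱 j Z) (i : ℕ) :
    IsHom 𝒱 (j + i) (bi w i Z) := by
  induction i with
  | zero => rw [Nat.cast_zero, add_zero]; exact hZ
  | succ i ih =>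
    have := ih.br hw
    push_cast
    rw [← add_assoc]
    exact this

/-- The product rule. -/
theorem apply_pow_mul (w : R) (Z : Module.End ℂ R) (m : ℕ) (x : R) :
    Z (w ^ m * x) = ∑ i ∈ Finset.range (m + 1), (m.choose i : R) * (w ^ (m - i) * bi w i Z x) := by
  induction m generalizing x with
  | zero => simp [bi_zero]
  | succ m ih =>
    have e1 : ∀ i, bi w i Z (w * x) = w * bi w i Z x + bi w (i + 1) Z x := by
      intro i
      rw [bi_succ, br_apply]; ring
    rw [pow_succ, mul_assoc, ih, Finset.sum_range_succ' _ (m + 1)]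
    have e2 : ∀ i ∈ Finset.range (m + 1), ((m + 1).choose (i + 1) : R) *
        (w ^ (m + 1 - (i + 1)) * bi w (i + 1) Z x) =
        (m.choose i : R) * (w ^ (m - i) * bi w (i + 1) Z x) +
        (m.choose (i + 1) : R) * (w ^ (m - i) * bi w (i + 1) Z x) := by
      intro i _
      rw [Nat.choose_succ_succ, Nat.cast_add, Nat.add_sub_add_right]
      ring
    rw [Finset.sum_congr rfl e2, Finset.sum_add_distrib]
    have e3 : ∑ i ∈ Finset.range (m + 1), (m.choose i : R) * (w ^ (m - i) * bi w i Z (w * x)) =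
        ∑ i ∈ Finset.range (m + 1), (m.choose i : R) * (w ^ (m - i) * bi w (i + 1) Z x) +
        ∑ i ∈ Finset.range (m + 1), (m.choose i : R) * (w ^ (m - i) * (w * bi w i Z x)) := by
      rw [← Finset.sum_add_distrib]
      refine Finset.sum_congr rfl fun i _ => ?_
      rw [e1]; ring
    rw [e3, add_assoc]
    congr 1
    rw [Finset.sum_range_succ']
    rw [Finset.sum_range_succ _ m, Nat.choose_succ_self, Nat.cast_zero, zero_mul, add_zero]
    congr 1
    · refine Finset.sum_congr rfl fun i hi => ?_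
      have hi' : i + 1 ≤ m := by have := Finset.mem_range.1 hi; omega
      have : m - i = (m - (i + 1)) + 1 := by omega
      rw [this, pow_succ]
      ring
    · simp only [Nat.choose_zero_right, Nat.cast_one, one_mul, Nat.sub_zero, bi_zero]
      rw [pow_succ, mul_assoc]

/-- The sum in `apply_pow_mul` when only the terms `0`, `p`, `p + 1` are nonzero. -/
theorem sum_three {w : R} {m p : ℕ} (hp : 1 ≤ p) (t : ℕ → R)
    (ht : ∀ i, i ≠ 0 → i ≠ p → i ≠ p + 1 → t i = 0) :
    ∑ i ∈ Finset.range (m + 1), (m.choose i : R) * (w ^ (m - i) * t i) =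
      w ^ m * t 0 + (m.choose p : R) * (w ^ (m - p) * t p) +
        (m.choose (p + 1) : R) * (w ^ (m - (p + 1)) * t (p + 1)) := by
  have h1 : ∑ i ∈ Finset.range (m + 1), (m.choose i : R) * (w ^ (m - i) * t i) =
      ∑ i ∈ Finset.range (m + p + 2), (m.choose i : R) * (w ^ (m - i) * t i) := by
    refine Finset.sum_subset ?_ ?_
    · intro i hi
      rw [Finset.mem_range] at hi ⊢
      omega
    · intro i _ hi
      rw [Finset.mem_range, not_lt] at hi
      rw [Nat.choose_eq_zero_of_lt (by omega), Nat.cast_zero, zero_mul]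
  rw [h1]
  have h2 : ∑ i ∈ ({0, p, p + 1} : Finset ℕ), (m.choose i : R) * (w ^ (m - i) * t i) =
      ∑ i ∈ Finset.range (m + p + 2), (m.choose i : R) * (w ^ (m - i) * t i) := by
    refine Finset.sum_subset ?_ ?_
    · intro i hi
      simp only [Finset.mem_insert, Finset.mem_singleton] at hi
      rw [Finset.mem_range]
      omega
    · intro i _ hi
      simp only [Finset.mem_insert, Finset.mem_singleton, not_or] at hi
      rw [ht i hi.1 hi.2.1 hi.2.2, mul_zero, mul_zero]
  rw [← h2, Finset.sum_insert, Finset.sum_insert, Finset.sum_singleton]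
  · simp only [Nat.choose_zero_right, Nat.cast_one, one_mul, Nat.sub_zero]
    ring
  · simp
  · simp only [Finset.mem_insert, Finset.mem_singleton, not_or]
    omega

/-- **Hard Lefschetz.** If `R` is semisimple over its structure algebra and `w ^ n ≠ 0` for an
element `w` of degree one, then the multiplication by `w ^ (n - 2 k)` is injective on the part of
degree `k`. -/
theorem hard_lefschetz (h0 : 𝒱 0 = Submodule.span ℂ {1})
    (hgen : Algebra.adjoin ℂ (𝒱 1 : Set R) = ⊤) (htop : ∀ k, n < k → 𝒱 k = ⊥) (hSS : SS 𝒱)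
    {w : R} (hw : w ∈ 𝒱 1) (hwn : w ^ n ≠ 0) :
    ∀ k, 2 * k ≤ n → ∀ x ∈ 𝒱 k, w ^ (n - 2 * k) * x = 0 → x = 0 := by
  intro k
  induction k using Nat.strong_induction_on with
  | _ k IH =>
  intro hk x hx hwx
  rcases Nat.eq_zero_or_pos k with hk0 | hk0
  · subst hk0
    rw [h0] at hx
    obtain ⟨c, rfl⟩ := Submodule.mem_span_singleton.1 hx
    rw [Nat.mul_zero, Nat.sub_zero, mul_smul_comm, mul_one] at hwx
    rw [(smul_eq_zero.1 hwx).resolve_right hwn, zero_smul]
  refine socle h0 hgen htop hSS hk0 hx ?_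
  intro p
  induction p using Nat.strong_induction_on with
  | _ p ihp =>
  intro hp Z hZ hh
  set N := n - 2 * k with hN
  -- the terms
  have hterms : ∀ i, i ≠ 0 → i ≠ p → i ≠ p + 1 → bi w i Z x = 0 := by
    intro i hi0 hip hip'
    rcases lt_or_ge i p with hlt | hge
    · refine ihp (p - i) (by omega) (by omega) _ (bi_mem hw hZ i) ?_
      have := bi_isHom hw hh i
      have e : -((p - i : ℕ) : ℤ) = -(p : ℤ) + i := by
        push_cast [Nat.cast_sub hlt.le]; ring
      rw [e]; exact this
    · have hge' : p + 2 ≤ i := by omega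
      have h1 := bi_isHom hw hh i
      have e : -(p : ℤ) + i = ((i - p : ℕ) : ℤ) := by
        push_cast [Nat.cast_sub hge]; ring
      rw [e] at h1
      rw [eq_zero_of_two_le hgen htop (n + 1) (i - p) (by omega) (by omega) _ (bi_mem hw hZ i) h1,
        LinearMap.zero_apply]
  -- the term `p + 1` is a multiple of `x`
  obtain ⟨q, hq⟩ : ∃ q, bi w (p + 1) Z x = q * x := by
    have h1 := bi_isHom hw hh (p + 1)
    have e : -(p : ℤ) + ((p + 1 : ℕ) : ℤ) = 1 := by push_cast; ring
    rw [e] at h1
    have h2 := (eq_mulLeft_of_one hgen htop (bi_mem hw hZ (p + 1)) h1).1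
    exact ⟨bi w (p + 1) Z 1, by
      conv_lhs => rw [h2]
      rw [LinearMap.mulLeft_apply]⟩
  set Y := bi w p Z x with hY
  have hzero : ∀ e, N ≤ e → w ^ e * (q * x) = 0 := by
    intro e he
    obtain ⟨e', rfl⟩ := Nat.exists_eq_add_of_le he
    have : w ^ (N + e') * (q * x) = w ^ e' * q * (w ^ N * x) := by ring
    rw [this, hwx, mul_zero]
  have hexp : ∀ m, N ≤ m → 0 = w ^ m * Z x + (m.choose p : R) * (w ^ (m - p) * Y) +
      (m.choose (p + 1) : R) * (w ^ (m - (p + 1)) * (q * x)) := by
    intro m hm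
    have h1 := apply_pow_mul w Z m x
    rw [sum_three hp (fun i => bi w i Z x) hterms] at h1
    have h2 : w ^ m * x = 0 := by
      obtain ⟨e', rfl⟩ := Nat.exists_eq_add_of_le hm
      have : w ^ (N + e') * x = w ^ e' * (w ^ N * x) := by ring
      rw [this, hwx, mul_zero]
    rw [h2, map_zero] at h1
    rw [← hq]
    exact h1
  -- the relation for `m = N + j`, multiplied by `w ^ (2 p - j)`
  have hrel : ∀ j, j ≤ 1 → w ^ (N + 2 * p) * Z x +
      ((N + j).choose p : R) * (w ^ (N + p) * Y) = 0 := by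
    intro j hj
    have h1 := hexp (N + j) (by omega)
    have h2 : w ^ (2 * p - j) * (w ^ (N + j) * Z x +
        ((N + j).choose p : R) * (w ^ (N + j - p) * Y) +
        ((N + j).choose (p + 1) : R) * (w ^ (N + j - (p + 1)) * (q * x))) = 0 := by
      rw [← h1, mul_zero]
    have h3 : w ^ (2 * p - j) * (w ^ (N + j) * Z x) = w ^ (N + 2 * p) * Z x := by
      rw [← mul_assoc, ← pow_add]
      congr 2
      omega
    have h4 : w ^ (2 * p - j) * (((N + j).choose p : R) * (w ^ (N + j - p) * Y)) =
        ((N + j).choose p : R) * (w ^ (N + p) * Y) := by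
      rcases lt_or_ge (N + j) p with hlt | hge
      · rw [Nat.choose_eq_zero_of_lt hlt, Nat.cast_zero, zero_mul, zero_mul, mul_zero]
      · have : w ^ (N + p) = w ^ (2 * p - j) * w ^ (N + j - p) := by
          rw [← pow_add]; congr 1; omega
        rw [this]; ring
    have h5 : w ^ (2 * p - j) * (((N + j).choose (p + 1) : R) *
        (w ^ (N + j - (p + 1)) * (q * x))) = 0 := by
      rcases lt_or_ge (N + j) (p + 1) with hlt | hge
      · rw [Nat.choose_eq_zero_of_lt hlt, Nat.cast_zero, zero_mul, mul_zero]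
      · have h6 := hzero (2 * p - j + (N + j - (p + 1))) (by omega)
        have : w ^ (2 * p - j) * (((N + j).choose (p + 1) : R) *
            (w ^ (N + j - (p + 1)) * (q * x))) = ((N + j).choose (p + 1) : R) *
            (w ^ (2 * p - j + (N + j - (p + 1))) * (q * x)) := by
          rw [pow_add]; ring
        rw [this, h6, mul_zero]
    rw [mul_add, mul_add, h3, h4, h5, add_zero] at h2
    exact h2
  have hR0 := hrel 0 (by omega)
  have hR1 := hrel 1 (by omega)
  have hZx : w ^ (N + 2 * p) * Z x = 0 := by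
    rcases lt_or_ge N p with hlt | hge
    · rw [add_zero, Nat.choose_eq_zero_of_lt hlt, Nat.cast_zero, zero_mul, add_zero] at hR0
      exact hR0
    · have h1 : ((N.choose (p - 1) : ℕ) : R) * (w ^ (N + p) * Y) = 0 := by
        have e : (N + 1).choose p = N.choose (p - 1) + N.choose p := by
          obtain ⟨p', rfl⟩ := Nat.exists_eq_add_of_le' hp
          rw [Nat.choose_succ_succ, Nat.add_sub_cancel]
        rw [e, Nat.cast_add] at hR1
        rw [add_zero] at hR0
        have := sub_eq_zero.2 (hR1.trans hR0.symm)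
        have e2 : w ^ (N + 2 * p) * Z x +
            (((N.choose (p - 1) : ℕ) : R) + ((N.choose p : ℕ) : R)) * (w ^ (N + p) * Y) -
            (w ^ (N + 2 * p) * Z x + ((N.choose p : ℕ) : R) * (w ^ (N + p) * Y)) =
            ((N.choose (p - 1) : ℕ) : R) * (w ^ (N + p) * Y) := by ring
        rw [e2] at this
        exact this
      have h2 : w ^ (N + p) * Y = 0 := by
        have h3 : ((N.choose (p - 1) : ℕ) : R) * (w ^ (N + p) * Y) =
            ((N.choose (p - 1) : ℕ) : ℂ) • (w ^ (N + p) * Y) := by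
          rw [Algebra.smul_def, map_natCast]
        rw [h3] at h1
        refine (smul_eq_zero.1 h1).resolve_left ?_
        have : 0 < N.choose (p - 1) := Nat.choose_pos (by omega)
        exact_mod_cast this.ne'
      rw [h2, mul_zero, add_zero] at hR0
      exact hR0
  -- the degree of `Z x`
  have hdeg := hh k x hx
  rcases lt_or_ge k p with hlt | hge
  · rw [zpart_neg (by omega), Submodule.mem_bot] at hdeg
    exact hdeg
  · have e : (k : ℤ) + -(p : ℤ) = ((k - p : ℕ) : ℤ) := by
      push_cast [Nat.cast_sub hge]; ring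
    rw [e, zpart_natCast] at hdeg
    refine IH (k - p) (by omega) (by omega) _ hdeg ?_
    have : n - 2 * (k - p) = N + 2 * p := by omega
    rw [this]
    exact hZx

/-- **The Jordan structure.** If `R` is semisimple over its structure algebra, every linear
functional on the part of degree one is induced by an operator of degree `-1` of the structure
algebra. -/
theorem jordan [Module.Finite ℂ (𝒱 1)] (h0 : 𝒱 0 = Submodule.span ℂ {1})
    (hgen : Algebra.adjoin ℂ (𝒱 1 : Set R) = ⊤) (htop : ∀ k, n < k → 𝒱 k = ⊥) (hSS : SS 𝒱)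
    (l : Module.Dual ℂ (𝒱 1)) :
    ∃ Z ∈ Str 𝒱, IsHom 𝒱 (-1) Z ∧ ∀ a : 𝒱 1, Z a = l a • (1 : R) := by
  let F : Submodule ℂ (Module.Dual ℂ (𝒱 1)) :=
    { carrier := {l | ∃ Z ∈ Str 𝒱, IsHom 𝒱 (-1) Z ∧ ∀ a : 𝒱 1, Z a = l a • (1 : R)}
      add_mem' := by
        rintro l l' ⟨Z, hZ, hh, hl⟩ ⟨Z', hZ', hh', hl'⟩
        refine ⟨Z + Z', Submodule.add_mem _ hZ hZ', ?_, ?_⟩
        · intro k x hx
          exact Submodule.add_mem _ (hh k x hx) (hh' k x hx)
        · intro a
          rw [LinearMap.add_apply, hl, hl', LinearMap.add_apply, add_smul]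
      zero_mem' := ⟨0, Submodule.zero_mem _, fun k x _ => Submodule.zero_mem _, fun a => by simp⟩
      smul_mem' := by
        rintro c l ⟨Z, hZ, hh, hl⟩
        refine ⟨c • Z, Submodule.smul_mem _ _ hZ, ?_, ?_⟩
        · intro k x hx
          exact Submodule.smul_mem _ _ (hh k x hx)
        · intro a
          rw [LinearMap.smul_apply, hl, LinearMap.smul_apply, smul_smul, smul_eq_mul] }
  suffices h : F = ⊤ by
    have : l ∈ F := by rw [h]; trivial
    exact this
  have hF : F.dualCoannihilator = ⊥ := by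
    rw [eq_bot_iff]
    intro a ha
    rw [Submodule.mem_dualCoannihilator] at ha
    rw [Submodule.mem_bot]
    refine Subtype.ext ?_
    rw [Submodule.coe_zero]
    refine socle h0 hgen htop hSS (k := 1) le_rfl a.2 ?_
    intro p hp Z hZ hh
    rcases Nat.lt_or_ge 1 p with h1 | h1
    · have := hh 1 a a.2
      rw [zpart_neg (by push_cast; omega), Submodule.mem_bot] at this
      exact this
    · obtain rfl : p = 1 := by omega
      have hh1 : IsHom 𝒱 (-1) Z := hh
      -- the functional of `Z`
      have hval : ∀ b : 𝒱 1, Z b ∈ Submodule.span ℂ {(1 : R)} := by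
        intro b
        have := hh 1 b b.2
        rw [← h0]
        exact this
      by_cases h10 : (1 : R) = 0
      · rw [← one_mul (Z a), h10, zero_mul]
      let l' : Module.Dual ℂ (𝒱 1) :=
        (LinearEquiv.toSpanNonzeroSingleton ℂ R 1 h10).symm.toLinearMap ∘ₗ
          (Z ∘ₗ (𝒱 1).subtype).codRestrict (Submodule.span ℂ {(1 : R)}) hval
      have hl' : ∀ b : 𝒱 1, Z b = l' b • (1 : R) := by
        intro b
        have h3 := LinearEquiv.toSpanNonzeroSingleton_apply ℂ R 1 h10 (l' b)
        have h4 : LinearEquiv.toSpanNonzeroSingleton ℂ R 1 h10 (l' b) = ⟨Z b, hval b⟩ :=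
          LinearEquiv.apply_symm_apply _ _
        rw [h4] at h3
        exact congrArg Subtype.val h3
      have := ha l' ⟨Z, hZ, hh1, hl'⟩
      rw [hl', this, zero_smul]
  have := Subspace.dualCoannihilator_dualAnnihilator_eq (W := F)
  rw [hF] at this
  rw [← this, Submodule.dualAnnihilator_bot]

end Pool.Agent.KS6_76.GWJ
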