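import Mathlib

/-!
# Operators normalized by an irreducible group
-/

set_option autoImplicit false

namespace Pool.Agent.KS6_76.GWJ

variable {E : Type*} [AddCommGroup E] [Module ℂ E]

/-- The subspace `N` is stable under the set `A` of operators. -/
def Stab (A : Set (Module.End ℂ E)) (N : Submodule ℂ E) : Prop := ∀ X ∈ A, ∀ u ∈ N, X u ∈ N

theorem Stab.sup {A : Set (Module.End ℂ E)} {N N' : Submodule ℂ E} (h : Stab A N)
    (h' : Stab A N') : Stab A (N ⊔ N') := by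
  intro X hX u hu
  obtain ⟨a, ha, b, hb, rfl⟩ := Submodule.mem_sup.1 hu
  rw [map_add]
  exact Submodule.add_mem_sup (h X hX a ha) (h' X hX b hb)

theorem Stab.inf {A : Set (Module.End ℂ E)} {N N' : Submodule ℂ E} (h : Stab A N)
    (h' : Stab A N') : Stab A (N ⊓ N') := fun X hX u hu => ⟨h X hX u hu.1, h' X hX u hu.2⟩

variable {Γ : Type*} [Group Γ] {ρ : Γ →* (E ≃ₗ[ℂ] E)} {A : Set (Module.End ℂ E)}

theorem Stab.map (hconj : ∀ γ, ∀ X ∈ A, (ρ γ).toLinearMap ∘ₗ X ∘ₗ (ρ γ⁻¹).toLinearMap ∈ A)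
    {N : Submodule ℂ E} (h : Stab A N) (γ : Γ) : Stab A (N.map (ρ γ).toLinearMap) := by
  rintro X hX _ ⟨v, hv, rfl⟩
  have h1 := h _ (hconj γ⁻¹ X hX) v hv
  rw [inv_inv] at h1
  refine ⟨_, h1, ?_⟩
  have h2 : ∀ y, ρ γ (ρ γ⁻¹ y) = y := by
    intro y
    have : (ρ γ * ρ γ⁻¹) y = y := by rw [← map_mul, mul_inv_cancel, map_one]; rfl
    exact this
  exact h2 _

/-- If the set `A` of operators is normalized by the group `ρ Γ`, which acts irreducibly on `W`,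
then every `A`-stable subspace of `W` has an `A`-stable complement in `W`. -/
theorem exists_stable_complement [FiniteDimensional ℂ E]
    (hconj : ∀ γ, ∀ X ∈ A, (ρ γ).toLinearMap ∘ₗ X ∘ₗ (ρ γ⁻¹).toLinearMap ∈ A)
    (W : Submodule ℂ E) (hWA : Stab A W) (hWΓ : ∀ γ, ∀ u ∈ W, ρ γ u ∈ W)
    (hirr : ∀ N : Submodule ℂ E, N ≤ W → (∀ γ, ∀ u ∈ N, ρ γ u ∈ N) → N = ⊥ ∨ N = W)
    (N : Submodule ℂ E) (hNW : N ≤ W) (hN : Stab A N) :
    ∃ N' : Submodule ℂ E, N' ≤ W ∧ Stab A N' ∧ N ⊓ N' = ⊥ ∧ N ⊔ N' = W := by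
  by_cases hW : W = ⊥
  · refine ⟨⊥, bot_le, fun X _ u hu => ?_, inf_bot_eq _, ?_⟩
    · rw [Submodule.mem_bot] at hu ⊢
      rw [hu, map_zero]
    · rw [sup_bot_eq]
      exact le_antisymm hNW (hW ▸ bot_le)
  have hinv : ∀ γ y, ρ γ (ρ γ⁻¹ y) = y := by
    intro γ y
    have : (ρ γ * ρ γ⁻¹) y = y := by rw [← map_mul, mul_inv_cancel, map_one]; rfl
    exact this
  have hinv' : ∀ γ y, ρ γ⁻¹ (ρ γ y) = y := by
    intro γ y
    have := hinv γ⁻¹ y
    rwa [inv_inv] at this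
  -- a minimal stable subspace
  obtain ⟨L, ⟨hLW, hL, hL0⟩, hLmin⟩ := (wellFounded_lt (α := Submodule ℂ E)).has_min
    {L | L ≤ W ∧ Stab A L ∧ L ≠ ⊥} ⟨W, le_rfl, hWA, hW⟩
  have hmin : ∀ M : Submodule ℂ E, Stab A M → M ≠ ⊥ → M ≤ L → M = L := by
    intro M hM hM0 hML
    by_contra hne
    exact hLmin M ⟨hML.trans hLW, hM, hM0⟩ (lt_of_le_of_ne hML hne)
  -- its translates span `W`
  have hZ : ⨆ γ, L.map (ρ γ).toLinearMap = W := by
    refine (hirr _ ?_ ?_).resolve_left ?_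
    · refine iSup_le fun γ => ?_
      rintro _ ⟨v, hv, rfl⟩
      exact hWΓ γ v (hLW hv)
    · intro γ u hu
      have h1 : ⨆ γ', L.map (ρ γ').toLinearMap ≤
          (⨆ γ', L.map (ρ γ').toLinearMap).comap (ρ γ).toLinearMap := by
        refine iSup_le fun γ' => ?_
        rintro _ ⟨v, hv, rfl⟩
        refine (le_iSup (fun γ' => L.map (ρ γ').toLinearMap) (γ * γ')) ⟨v, hv, ?_⟩
        rw [map_mul]; rfl
      exact h1 hu
    · intro h0
      apply hL0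
      rw [eq_bot_iff]
      intro v hv
      have h1 : ρ 1 v ∈ ⨆ γ, L.map (ρ γ).toLinearMap :=
        (le_iSup (fun γ => L.map (ρ γ).toLinearMap) 1) ⟨v, hv, rfl⟩
      rw [h0, map_one] at h1
      exact h1
  -- a maximal stable subspace disjoint from `N`
  obtain ⟨N', ⟨hN'W, hN', hdisj⟩, hN'max⟩ := (wellFounded_gt (α := Submodule ℂ E)).has_min
    {N' | N' ≤ W ∧ Stab A N' ∧ N ⊓ N' = ⊥}
    ⟨⊥, bot_le, fun X _ u hu => by rw [Submodule.mem_bot] at hu ⊢; rw [hu, map_zero],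
      inf_bot_eq _⟩
  refine ⟨N', hN'W, hN', hdisj, ?_⟩
  by_contra hne
  obtain ⟨γ, hγ⟩ : ∃ γ, ¬ L.map (ρ γ).toLinearMap ≤ N ⊔ N' := by
    by_contra hcon
    push Not at hcon
    apply hne
    refine le_antisymm (sup_le hNW hN'W) ?_
    rw [← hZ]
    exact iSup_le hcon
  set L' := L.map (ρ γ).toLinearMap with hL'
  have hL'A : Stab A L' := hL.map hconj γ
  have hL'W : L' ≤ W := by
    rintro _ ⟨v, hv, rfl⟩
    exact hWΓ γ v (hLW hv)
  have hint : (N ⊔ N') ⊓ L' = ⊥ := by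
    by_contra h0
    have h1 : ((N ⊔ N') ⊓ L').map (ρ γ⁻¹).toLinearMap = L := by
      refine hmin _ (Stab.map hconj ((hN.sup hN').inf hL'A) γ⁻¹) ?_ ?_
      · intro h2
        apply h0
        rw [eq_bot_iff]
        intro v hv
        have h3 : ρ γ⁻¹ v ∈ ((N ⊔ N') ⊓ L').map (ρ γ⁻¹).toLinearMap := ⟨v, hv, rfl⟩
        rw [h2, Submodule.mem_bot] at h3
        rw [Submodule.mem_bot]
        exact (ρ γ⁻¹).map_eq_zero_iff.1 h3
      · rintro _ ⟨v, hv, rfl⟩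
        obtain ⟨u, hu, rfl⟩ := hv.2
        change ρ γ⁻¹ (ρ γ u) ∈ L
        rw [hinv']
        exact hu
    apply hγ
    rintro _ ⟨v, hv, rfl⟩
    rw [← h1] at hv
    obtain ⟨u, hu, rfl⟩ := hv
    change ρ γ (ρ γ⁻¹ u) ∈ N ⊔ N'
    rw [hinv]
    exact hu.1
  refine hN'max (N' ⊔ L') ⟨sup_le hN'W hL'W, hN'.sup hL'A, ?_⟩ ?_
  · have h1 : Disjoint N N' := disjoint_iff.2 hdisj
    have h2 : Disjoint (N ⊔ N') L' := disjoint_iff.2 hint
    exact disjoint_iff.1 (h1.disjoint_sup_right_of_disjoint_sup_left h2)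
  · refine lt_of_le_of_ne le_sup_left fun h1 => ?_
    apply hγ
    have h2 : L' ≤ N' := by
      rw [h1]; exact le_sup_right
    exact h2.trans le_sup_right

end Pool.Agent.KS6_76.GWJ
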