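import Pool.Agent.KS6_76.GWJ.Alg3

/-!
# The structure algebra through exponentials
-/

set_option autoImplicit false

namespace Pool.Agent.KS6_76.GWJ

open DirectSum

section ex

variable {A : Type*} [Ring A] [Algebra ℂ A]

/-- The exponential series up to the term of degree `n`. -/
noncomputable def ex (n : ℕ) (a : A) : A :=
  ∑ k ∈ Finset.range (n + 1), ((k.factorial : ℂ)⁻¹) • a ^ k

theorem ex_zero (n : ℕ) : ex n (0 : A) = 1 := by
  unfold ex
  rw [Finset.sum_eq_single 0]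
  · simp
  · intro k _ hk
    rw [zero_pow hk, smul_zero]
  · intro h
    exact absurd (Finset.mem_range.2 (Nat.succ_pos n)) h

theorem ex_eq (n : ℕ) {a : A} (ha : a ^ (n + 1) = 0) :
    letI : Module ℚ A := Module.compHom A (algebraMap ℚ ℂ)
    IsNilpotent.exp a = ex n a := by
  let : Module ℚ A := Module.compHom A (algebraMap ℚ ℂ)
  rw [IsNilpotent.exp_eq_sum ha]
  unfold ex
  refine Finset.sum_congr rfl fun k _ => ?_
  change (algebraMap ℚ ℂ ((k.factorial : ℚ)⁻¹)) • a ^ k = _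
  rw [map_inv₀, map_natCast]

theorem ex_congr {m n : ℕ} {a : A} (hm : a ^ (m + 1) = 0) (hn : a ^ (n + 1) = 0) :
    ex m a = ex n a := by
  rw [← ex_eq m hm, ← ex_eq n hn]

theorem ex_add {m n k : ℕ} {a b : A} (hab : Commute a b) (ha : a ^ (m + 1) = 0)
    (hb : b ^ (n + 1) = 0) (hk : (a + b) ^ (k + 1) = 0) : ex k (a + b) = ex m a * ex n b := by
  let : Module ℚ A := Module.compHom A (algebraMap ℚ ℂ)
  have := IsNilpotent.exp_add_of_commute hab ⟨_, ha⟩ ⟨_, hb⟩
  rw [ex_eq m ha, ex_eq n hb, ex_eq k hk] at this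
  exact this

end ex

section poly

variable {R : Type*} [AddCommGroup R] [Module ℂ R]

/-- If a polynomial with vector coefficients takes values in a subspace at infinitely many points,
its coefficients lie in the subspace. -/
theorem coeff_mem_of_infinite {ι : Type*} (I : Finset ι) (e : ι → ℕ) (v : ι → R)
    (N : Submodule ℂ R) {T : Set ℂ} (hT : T.Infinite)
    (h : ∀ s ∈ T, ∑ p ∈ I, s ^ e p • v p ∈ N) (k : ℕ) :
    ∑ p ∈ I.filter (fun p => e p = k), v p ∈ N := by
  classical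
  rw [← Subspace.forall_mem_dualAnnihilator_apply_eq_zero_iff]
  intro l hl
  have hl' : ∀ u ∈ N, l u = 0 := fun u hu => (Submodule.mem_dualAnnihilator l).1 hl u hu
  let P : Polynomial ℂ := ∑ p ∈ I, Polynomial.monomial (e p) (l (v p))
  have hP : P = 0 := by
    refine Polynomial.eq_zero_of_infinite_isRoot P (hT.mono fun s hs => ?_)
    change P.IsRoot s
    rw [Polynomial.IsRoot.def, Polynomial.eval_finsetSum]
    have h1 := hl' _ (h s hs)
    rw [map_sum] at h1
    rw [← h1]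
    refine Finset.sum_congr rfl fun p _ => ?_
    rw [Polynomial.eval_monomial, map_smul, smul_eq_mul, mul_comm]
  have h2 : P.coeff k = 0 := by rw [hP, Polynomial.coeff_zero]
  rw [Polynomial.finsetSum_coeff] at h2
  rw [map_sum, Finset.sum_filter]
  refine Eq.trans (Finset.sum_congr rfl fun p _ => ?_) h2
  rw [Polynomial.coeff_monomial]

/-- Under the same hypothesis the values at all points lie in the subspace. -/
theorem value_mem_of_infinite {ι : Type*} (I : Finset ι) (e : ι → ℕ) (v : ι → R)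
    (N : Submodule ℂ R) {T : Set ℂ} (hT : T.Infinite)
    (h : ∀ s ∈ T, ∑ p ∈ I, s ^ e p • v p ∈ N) (s : ℂ) :
    ∑ p ∈ I, s ^ e p • v p ∈ N := by
  classical
  rw [← Finset.sum_fiberwise_of_maps_to (t := I.image e) (g := e)
    (fun p hp => Finset.mem_image_of_mem e hp)]
  refine N.sum_mem fun k _ => ?_
  have h1 : ∑ p ∈ I.filter (fun p => e p = k), s ^ e p • v p =
      s ^ k • ∑ p ∈ I.filter (fun p => e p = k), v p := by
    rw [Finset.smul_sum]
    refine Finset.sum_congr rfl fun p hp => ?_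
    rw [(Finset.mem_filter.1 hp).2]
  rw [h1]
  exact N.smul_mem _ (coeff_mem_of_infinite I e v N hT h k)

end poly

variable {R : Type*} [CommRing R] [Algebra ℂ R] {𝒱 : ℕ → Submodule ℂ R} {n : ℕ}

variable (𝒱 n) in
/-- The operator `Z` is tangent to the cone of the vectors `c • exp a`. -/
def ExpC (Z : Module.End ℂ R) : Prop :=
  ∀ a ∈ 𝒱 1, ex n (-a) * Z (ex n a) ∈ 𝒱 0 ⊔ 𝒱 1

theorem ex_smul_eq (s : ℂ) (a : R) :
    ex n (s • a) = ∑ k ∈ Finset.range (n + 1), s ^ k • (((k.factorial : ℂ)⁻¹) • a ^ k) := by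
  unfold ex
  refine Finset.sum_congr rfl fun k _ => ?_
  rw [smul_pow, smul_comm]

/-- The expansion of `ex (- s a) * (y * Z (ex (s a) * x))`. -/
theorem expand (Z : Module.End ℂ R) (s : ℂ) (b x y : R) :
    ex n (-(s • b)) * (y * Z (ex n (s • b) * x)) =
      ∑ p ∈ Finset.range (n + 1) ×ˢ Finset.range (n + 1), s ^ (p.1 + p.2) •
        ((((-1 : ℂ) ^ p.1 * (p.1.factorial : ℂ)⁻¹) * (p.2.factorial : ℂ)⁻¹) •
          (b ^ p.1 * (y * Z (b ^ p.2 * x)))) := by
  rw [← neg_smul, ex_smul_eq, ex_smul_eq, Finset.sum_product, Finset.sum_mul (s := Finset.range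
    (n + 1)) (f := fun k => s ^ k • (((k.factorial : ℂ)⁻¹) • b ^ k)) (a := x), map_sum,
    Finset.mul_sum, Finset.sum_mul]
  refine Finset.sum_congr rfl fun i _ => ?_
  rw [Finset.mul_sum]
  refine Finset.sum_congr rfl fun j _ => ?_
  simp only [smul_mul_assoc, map_smul, mul_smul_comm, smul_smul]
  congr 1
  rw [neg_pow, pow_add]
  ring

theorem ExpC.br (hpow : ∀ a ∈ 𝒱 1, a ^ (n + 1) = 0) {Z : Module.End ℂ R} (hZ : ExpC 𝒱 n Z)
    {b : R} (hb : b ∈ 𝒱 1) : ExpC 𝒱 n (br Z b) := by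
  intro a ha
  have h1 : ∀ s : ℂ, ex n (-(s • b)) * (ex n (-a) * Z (ex n (s • b) * ex n a)) ∈ 𝒱 0 ⊔ 𝒱 1 := by
    intro s
    have hs : s • b ∈ 𝒱 1 := (𝒱 1).smul_mem s hb
    have h2 := hZ (s • b + a) ((𝒱 1).add_mem hs ha)
    rw [ex_add (Commute.all _ _) (hpow _ hs) (hpow _ ha) (hpow _ ((𝒱 1).add_mem hs ha)), neg_add,
      ex_add (Commute.all _ _) (hpow _ ((𝒱 1).neg_mem hs)) (hpow _ ((𝒱 1).neg_mem ha))
        (by rw [← neg_add]; exact hpow _ ((𝒱 1).neg_mem ((𝒱 1).add_mem hs ha))), mul_assoc] at h2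
    exact h2
  have h3 := coeff_mem_of_infinite (Finset.range (n + 1) ×ˢ Finset.range (n + 1))
    (fun p => p.1 + p.2)
    (fun p => ((((-1 : ℂ) ^ p.1 * (p.1.factorial : ℂ)⁻¹) * (p.2.factorial : ℂ)⁻¹) •
          (b ^ p.1 * (ex n (-a) * Z (b ^ p.2 * ex n a))))) (𝒱 0 ⊔ 𝒱 1) Set.infinite_univ
    (fun s _ => by rw [← expand]; exact h1 s) 1
  rcases Nat.eq_zero_or_pos n with hn | hn
  · -- `b = 0`
    subst hn
    have hb0 : b = 0 := by simpa using hpow b hb
    subst hb0
    rw [br_apply, zero_mul, map_zero, zero_mul, sub_zero, mul_zero]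
    exact Submodule.zero_mem _
  have h4 : (Finset.range (n + 1) ×ˢ Finset.range (n + 1)).filter (fun p => p.1 + p.2 = 1) =
      {(0, 1), (1, 0)} := by
    ext ⟨i, j⟩
    simp only [Finset.mem_filter, Finset.mem_product, Finset.mem_range, Finset.mem_insert,
      Finset.mem_singleton, Prod.mk.injEq]
    omega
  rw [h4, Finset.sum_insert (by simp), Finset.sum_singleton] at h3
  simp only [pow_zero, pow_one, Nat.factorial_zero, Nat.factorial_one, Nat.cast_one, inv_one,
    mul_one, one_mul, one_smul, neg_smul] at h3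
  have h5 : ex n (-a) * Pool.Agent.KS6_76.GWJ.br Z b (ex n a) =
      ex n (-a) * Z (b * ex n a) + -(b * (ex n (-a) * Z (ex n a))) := by
    rw [br_apply]; ring
  rw [h5]
  exact h3

/-- The exponential condition implies membership in the structure algebra. -/
theorem ExpC.mem_Str (hpow : ∀ a ∈ 𝒱 1, a ^ (n + 1) = 0) {Z : Module.End ℂ R}
    (hZ : ExpC 𝒱 n Z) : Z ∈ Str 𝒱 := by
  have main : ∀ l : List R, (∀ a ∈ l, a ∈ 𝒱 1) → ∀ Z : Module.End ℂ R, ExpC 𝒱 n Z →
      l.foldl Pool.Agent.KS6_76.GWJ.br Z 1 ∈ 𝒱 0 ⊔ 𝒱 1 := by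
    intro l
    induction l with
    | nil =>
      intro _ Z hZ
      have := hZ 0 (𝒱 1).zero_mem
      rwa [neg_zero, ex_zero, one_mul] at this
    | cons a l ih =>
      intro hl Z hZ
      rw [List.foldl_cons]
      exact ih (fun b hb => hl b (by simp [hb])) _ (hZ.br hpow (hl a (by simp)))
  exact fun l hl => main l hl Z hZ

/-- The elements of the structure algebra satisfy the exponential condition. -/
theorem expC_of_mem (hpow : ∀ a ∈ 𝒱 1, a ^ (n + 1) = 0) {Z : Module.End ℂ R}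
    (hZ : Z ∈ Str 𝒱) : ExpC 𝒱 n Z := by
  intro a ha
  let m : Module.End ℂ R := LinearMap.mulLeft ℂ a
  let L : Module.End ℂ (Module.End ℂ R) := LinearMap.mulLeft ℂ (-m)
  let S : Module.End ℂ (Module.End ℂ R) := LinearMap.mulRight ℂ m
  have hLS : Commute L S := LinearMap.commute_mulLeft_right _ _
  have hm : ∀ k, m ^ k = LinearMap.mulLeft ℂ (a ^ k) := fun k => LinearMap.pow_mulLeft _ _ a k
  have hnm : ∀ k, (-m) ^ k = LinearMap.mulLeft ℂ ((-a) ^ k) := by
    intro k
    have : -m = LinearMap.mulLeft ℂ (-a) := by ext x; simp [m]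
    rw [this, LinearMap.pow_mulLeft]
  have hLk : ∀ k, L ^ k = LinearMap.mulLeft ℂ ((-m) ^ k) := fun k => LinearMap.pow_mulLeft _ _ _ k
  have hSk : ∀ k, S ^ k = LinearMap.mulRight ℂ (m ^ k) := fun k => LinearMap.pow_mulRight _ _ _ k
  have hL0 : L ^ (n + 1) = 0 := by
    rw [hLk, hnm, hpow _ ((𝒱 1).neg_mem ha)]
    ext; simp
  have hS0 : S ^ (n + 1) = 0 := by
    rw [hSk, hm, hpow _ ha]
    ext; simp
  have hLS0 : (L + S) ^ (2 * n + 1 + 1) = 0 :=
    hLS.add_pow_eq_zero_of_add_le_succ_of_pow_eq_zero hL0 hS0 (by omega)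
  have h1 := ex_add (A := Module.End ℂ (Module.End ℂ R)) hLS hL0 hS0 hLS0
  have hexL : ∀ W : Module.End ℂ R, ex n L W = LinearMap.mulLeft ℂ (ex n (-a)) * W := by
    intro W
    unfold ex
    rw [LinearMap.sum_apply]
    ext x
    simp only [LinearMap.sum_apply, LinearMap.smul_apply, hLk, hnm, LinearMap.mulLeft_apply,
      Module.End.mul_apply, Finset.sum_mul, smul_mul_assoc]
  have hexS : ∀ W : Module.End ℂ R, ex n S W = W * LinearMap.mulLeft ℂ (ex n a) := by
    intro W
    unfold ex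
    rw [LinearMap.sum_apply]
    ext x
    simp only [LinearMap.sum_apply, LinearMap.smul_apply, hSk, hm, LinearMap.mulRight_apply,
      LinearMap.mulLeft_apply, Module.End.mul_apply, Finset.sum_mul, smul_mul_assoc, map_sum,
      map_smul]
  have h2 : ∀ k, ((L + S) ^ k) Z ∈ Str 𝒱 := by
    intro k
    induction k with
    | zero => exact hZ
    | succ k ih =>
      rw [pow_succ', Module.End.mul_apply]
      have : (L + S) (((L + S) ^ k) Z) = br (((L + S) ^ k) Z) a := by
        rw [LinearMap.add_apply]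
        ext x
        simp only [br_apply, LinearMap.add_apply]
        have e1 : (L (((L + S) ^ k) Z)) x = -(a * ((((L + S) ^ k) Z) x)) := by
          have : L (((L + S) ^ k) Z) = (-m) * (((L + S) ^ k) Z) := rfl
          rw [this, Module.End.mul_apply, LinearMap.neg_apply]
          rfl
        have e2 : (S (((L + S) ^ k) Z)) x = (((L + S) ^ k) Z) (a * x) := rfl
        rw [e1, e2]
        ring
      rw [this]
      exact br_mem ih ha
  have h3 : ex n (-a) * Z (ex n a) = (ex (2 * n + 1) (L + S) Z) 1 := by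
    rw [h1, Module.End.mul_apply, hexS, hexL]
    simp
  rw [h3]
  unfold ex
  rw [LinearMap.sum_apply, LinearMap.sum_apply]
  refine Submodule.sum_mem _ fun k _ => ?_
  rw [LinearMap.smul_apply, LinearMap.smul_apply]
  exact Submodule.smul_mem _ _ (apply_one_mem (h2 k))

/-- The exponential condition needs to be checked only for small multiples. -/
theorem expC_of_small (Z : Module.End ℂ R)
    (h : ∀ a ∈ 𝒱 1, ∃ T : Set ℂ, T.Infinite ∧
      ∀ s ∈ T, ex n (-(s • a)) * Z (ex n (s • a)) ∈ 𝒱 0 ⊔ 𝒱 1) : ExpC 𝒱 n Z := by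
  intro a ha
  obtain ⟨T, hT, hs⟩ := h a ha
  have h1 := value_mem_of_infinite (Finset.range (n + 1) ×ˢ Finset.range (n + 1))
    (fun p => p.1 + p.2)
    (fun p => ((((-1 : ℂ) ^ p.1 * (p.1.factorial : ℂ)⁻¹) * (p.2.factorial : ℂ)⁻¹) •
          (a ^ p.1 * (1 * Z (a ^ p.2 * 1))))) (𝒱 0 ⊔ 𝒱 1) hT
    (fun s hs' => by
      rw [← expand, one_mul, mul_one]
      exact hs s hs') 1
  rw [← expand, one_smul, one_mul, mul_one] at h1
  exact h1

end Pool.Agent.KS6_76.GWJ
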