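import Pool.Graph.R_seed8.H956GW.Local

/-!
# Identity theorem for operators between holomorphic subbundles
-/

set_option autoImplicit false

open scoped Manifold Topology

namespace Pool.Agent.KS6_76.GWJ

open H956GW

variable {G : Type*} [NormedAddCommGroup G] [NormedSpace ℂ G]
  {M : Type*} [TopologicalSpace M] [ChartedSpace G M]
  {E : Type*} [NormedAddCommGroup E] [NormedSpace ℂ E]

/-- The constant subbundle. -/
theorem isHolomorphicSubbundle_const (N : Submodule ℂ E) :
    IsHolomorphicSubbundle G (fun _ : M => N) := by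
  intro m₀
  refine ⟨Set.univ, Filter.univ_mem, fun _ => 1, ?_, fun m _ => ⟨isUnit_one, fun u => Iff.rfl⟩⟩
  exact mdifferentiableOn_const

/-- Identity theorem: if the linear map `Z` maps the fibres of the holomorphic subbundle `F` into
those of `F'` over a nonempty open set, it does so everywhere. -/
theorem map_mem_of_open [IsManifold 𝓘(ℂ, G) 1 M] [PreconnectedSpace M]
    [FiniteDimensional ℂ E] {F F' : M → Submodule ℂ E} (hF : IsHolomorphicSubbundle G F)
    (hF' : IsHolomorphicSubbundle G F') (Z : E →ₗ[ℂ] E) {V : Set M} (hV : IsOpen V)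
    (hne : V.Nonempty) (h : ∀ m ∈ V, ∀ u ∈ F m, Z u ∈ F' m) (m : M) : ∀ u ∈ F m, Z u ∈ F' m := by
  have : CompleteSpace E := FiniteDimensional.complete ℂ E
  let O₁ : Set M := {m | ∀ᶠ m' in 𝓝 m, ∀ u ∈ F m', Z u ∈ F' m'}
  have hOo : IsOpen O₁ := isOpen_setOfPred_eventually_nhds
  have hVO : V ⊆ O₁ := fun m hm => Filter.mem_of_superset (hV.mem_nhds hm) h
  have hOc : IsClosed O₁ := by
    refine isClosed_of_closure_subset ?_
    intro m₀ hm₀
    obtain ⟨U₁, hU₁, g, hg, hgU⟩ := hF m₀
    obtain ⟨U₂, hU₂, g', hg', hgU'⟩ := hF' m₀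
    let U := U₁ ∩ U₂
    have hU : U ∈ 𝓝 m₀ := Filter.inter_mem hU₁ hU₂
    let e := chartAt G m₀
    let O : Set G := e.target ∩ e.symm ⁻¹' (interior U)
    have hO : IsOpen O := e.isOpen_inter_preimage_symm isOpen_interior
    have hm₀s : m₀ ∈ e.source := mem_chart_source _ _
    have hm₀O : e m₀ ∈ O := by
      refine ⟨e.map_source hm₀s, ?_⟩
      change e.symm (e m₀) ∈ interior U
      rw [e.left_inv hm₀s]
      exact mem_interior_iff_mem_nhds.2 hU
    obtain ⟨r, hr, hBO⟩ := Metric.isOpen_iff.1 hO (e m₀) hm₀O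
    let B := Metric.ball (e m₀) r
    let W : Set M := e.source ∩ e ⁻¹' B
    have hWo : IsOpen W := e.isOpen_inter_preimage Metric.isOpen_ball
    have hm₀W : m₀ ∈ W := ⟨hm₀s, Metric.mem_ball_self hr⟩
    have hWU : W ⊆ interior U := by
      intro m hm
      have := (hBO hm.2).2
      change e.symm (e m) ∈ interior U at this
      rwa [e.left_inv hm.1] at this
    obtain ⟨m₁, hm₁W, hm₁O⟩ := mem_closure_iff.1 hm₀ W hWo hm₀W
    -- the inverse of `g` applied to a vector of `F m₀`
    have hinv : ∀ m ∈ U, ∀ v, g m (Ring.inverse (g m) v) = v := by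
      intro m hm v
      have h1 : g m * Ring.inverse (g m) = 1 := Ring.mul_inverse_cancel _ (hgU m hm.1).1
      have h2 : (g m * Ring.inverse (g m)) v = v := by rw [h1]; rfl
      exact h2
    have hinv' : ∀ m ∈ U, ∀ v, Ring.inverse (g m) (g m v) = v := by
      intro m hm v
      have h1 : Ring.inverse (g m) * g m = 1 := Ring.inverse_mul_cancel _ (hgU m hm.1).1
      have h2 : (Ring.inverse (g m) * g m) v = v := by rw [h1]; rfl
      exact h2
    have key : ∀ m ∈ W, ∀ u ∈ F m, Z u ∈ F' m := by
      intro m hm u hu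
      have hmU : m ∈ U := interior_subset (hWU hm)
      rw [(hgU' m hmU.2).2]
      rw [← Subspace.forall_mem_dualAnnihilator_apply_eq_zero_iff]
      intro l hl
      -- the holomorphic function
      let v := g m u
      have hv : v ∈ F m₀ := ((hgU m hmU.1).2 u).1 hu
      let k : G → ℂ := fun z => l (g' (e.symm z) (Z (Ring.inverse (g (e.symm z)) v)))
      have hk : DifferentiableOn ℂ k B := by
        intro z hz
        have hzO := hBO hz
        have hzU : e.symm z ∈ U := interior_subset hzO.2
        have h1 : MDifferentiableAt 𝓘(ℂ, G) 𝓘(ℂ, G) e.symm z :=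
          (mdifferentiableAt_atlas_symm (chart_mem_atlas _ _) hzO.1)
        have hmemU : U ∈ 𝓝 (e.symm z) := mem_interior_iff_mem_nhds.1 hzO.2
        have h2 : MDifferentiableAt 𝓘(ℂ, G) 𝓘(ℂ, E →L[ℂ] E) g (e.symm z) :=
          (hg _ hzU.1).mdifferentiableAt (Filter.mem_of_superset hmemU Set.inter_subset_left)
        have h2' : MDifferentiableAt 𝓘(ℂ, G) 𝓘(ℂ, E →L[ℂ] E) g' (e.symm z) :=
          (hg' _ hzU.2).mdifferentiableAt (Filter.mem_of_superset hmemU Set.inter_subset_right)
        have h3 : MDifferentiableAt 𝓘(ℂ, G) 𝓘(ℂ, E →L[ℂ] E) (g ∘ e.symm) z :=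
          MDifferentiableAt.comp z h2 h1
        have h3' : MDifferentiableAt 𝓘(ℂ, G) 𝓘(ℂ, E →L[ℂ] E) (g' ∘ e.symm) z :=
          MDifferentiableAt.comp z h2' h1
        have h4 : DifferentiableAt ℂ (g ∘ e.symm) z := mdifferentiableAt_iff_differentiableAt.1 h3
        have h4' : DifferentiableAt ℂ (g' ∘ e.symm) z :=
          mdifferentiableAt_iff_differentiableAt.1 h3'
        obtain ⟨x, hx⟩ := (hgU _ hzU.1).1
        have h5 : DifferentiableAt ℂ (Ring.inverse : (E →L[ℂ] E) → (E →L[ℂ] E)) (g (e.symm z)) := by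
          rw [← hx]
          exact (hasFDerivAt_ringInverse x).differentiableAt
        have h5' : DifferentiableAt ℂ (Ring.inverse : (E →L[ℂ] E) → (E →L[ℂ] E))
            ((g ∘ e.symm) z) := h5
        have h6 : DifferentiableAt ℂ (fun z => Ring.inverse (g (e.symm z))) z :=
          h5'.comp z h4
        have h7 : DifferentiableAt ℂ (fun z => Ring.inverse (g (e.symm z)) v) z :=
          h6.clm_apply (differentiableAt_const v)
        have h8 : DifferentiableAt ℂ (fun z => Z (Ring.inverse (g (e.symm z)) v)) z :=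
          (LinearMap.toContinuousLinearMap Z).differentiableAt.comp z h7
        have h9 : DifferentiableAt ℂ
            (fun z => g' (e.symm z) (Z (Ring.inverse (g (e.symm z)) v))) z :=
          DifferentiableAt.clm_apply h4' h8
        have h10 : Differentiable ℂ (fun x : E => l x) :=
          (LinearMap.toContinuousLinearMap l).differentiable
        exact ((h10 _).comp z h9).differentiableWithinAt
      have hz₁ : e m₁ ∈ B := hm₁W.2
      have h0 : ∀ᶠ z in 𝓝 (e m₁), k z = 0 := by
        have ht : Filter.Tendsto e.symm (𝓝 (e m₁)) (𝓝 m₁) := e.tendsto_symm hm₁W.1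
        have hev : ∀ᶠ m' in 𝓝 m₁, m' ∈ U ∧ ∀ u ∈ F m', Z u ∈ F' m' := by
          refine Filter.Eventually.and ?_ hm₁O
          exact mem_interior_iff_mem_nhds.1 (hWU hm₁W)
        filter_upwards [ht.eventually hev] with z hz
        have hz1 := hz.1
        have hz2 := hz.2 (Ring.inverse (g (e.symm z)) v) (by
          rw [(hgU _ hz1.1).2, hinv _ hz1]
          exact hv)
        rw [(hgU' _ hz1.2).2] at hz2
        exact (Submodule.mem_dualAnnihilator l).1 hl _ hz2
      have := eq_zero_of_eventually_zero Metric.isOpen_ball (convex_ball _ _) hk hz₁ h0 hm.2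
      have hkm : k (e m) = l (g' m (Z u)) := by
        change l (g' (e.symm (e m)) (Z (Ring.inverse (g (e.symm (e m))) v))) = _
        rw [e.left_inv hm.1, hinv' m hmU]
      rw [← hkm]
      exact this
    exact Filter.mem_of_superset (hWo.mem_nhds hm₀W) key
  have hO : O₁ = Set.univ := IsClopen.eq_univ ⟨hOc, hOo⟩ (hne.mono hVO)
  have : m ∈ O₁ := by rw [hO]; trivial
  exact this.self_of_nhds

end Pool.Agent.KS6_76.GWJ
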