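import Pool.Agent.KS6_76.GWJ.Expo
import Pool.Agent.KS6_76.GWJ.Cliff
import Pool.Agent.KS6_76.GWJ.Id

/-!
# From semisimple variations to semisimple modules over the structure algebra
-/

set_option autoImplicit false

open scoped Manifold Topology

namespace Pool.Agent.KS6_76.GWJ

open H956GW

variable {G : Type*} [NormedAddCommGroup G] [NormedSpace ℂ G]
  {M : Type*} [TopologicalSpace M] [ChartedSpace G M]
  {Γ : Type*} [Group Γ] [MulAction Γ M]
  {E : Type*} [NormedAddCommGroup E] [NormedSpace ℂ E]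
  {S : Type*} [NormedAddCommGroup S] [NormedSpace ℂ S] {H : Type*}

theorem map_ex {A B : Type*} [Ring A] [Algebra ℂ A] [Ring B] [Algebra ℂ B] (g : A →ₐ[ℂ] B)
    (n : ℕ) (a : A) : g (ex n a) = ex n (g a) := by
  unfold ex
  rw [map_sum]
  refine Finset.sum_congr rfl fun k _ => ?_
  rw [map_smul, map_pow]

theorem SS_of_locallyEquivalent [CommRing H] [Algebra ℂ H] [Nontrivial H] (c : S →ₗ[ℂ] H) (n : ℕ)
    (hpow : ∀ x, c x ^ (n + 1) = 0)
    (U : Set S) (A : S → S → H → H) (hA : ∀ t ∈ U, ∀ x h, A t x h = c x * h)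
    (F : ℤ → Submodule ℂ H) {p₀ p₁ : ℤ} (hG0 : F p₀ = Submodule.span ℂ {1})
    (t₀ : S) [IsManifold 𝓘(ℂ, G) 1 M] [PreconnectedSpace M] [FiniteDimensional ℂ E]
    (Y : Variation G M Γ E) (hY : Y.Semisimple) (m₀ : M)
    (hloc : LocallyEquivalentAt U A F t₀ Y m₀) {R : Subalgebra ℂ H}
    (hR : R = Algebra.adjoin ℂ (Set.range c)) (𝒱 : ℕ → Submodule ℂ R)
    (h1 : ∀ r : R, r ∈ 𝒱 1 ↔ (r : H) ∈ Set.range c)
    (hB : ∀ r : R, r ∈ 𝒱 0 ⊔ 𝒱 1 ↔ (r : H) ∈ F p₁) : SS 𝒱 := by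
  obtain ⟨φ, T, f, ht₀, hφU, -, -, hTA, hF⟩ := hloc
  -- a ball
  obtain ⟨ε, hε, hball⟩ := Metric.isOpen_iff.1 φ.open_source t₀ ht₀
  let W := Metric.ball t₀ ε
  have hWo : IsOpen W := Metric.isOpen_ball
  have hWc : Convex ℝ W := convex_ball _ _
  have ht₀W : t₀ ∈ W := Metric.mem_ball_self hε
  have hT : ∀ t ∈ W, ∀ h : H, ∃ D : S →L[ℂ] E,
      HasFDerivAt (fun t => T t h) D t ∧ ∀ x, D x = T t (c x * h) := by
    intro t ht h
    obtain ⟨D, hD, hDx⟩ := hTA t (hball ht) h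
    refine ⟨D, hD, fun x => ?_⟩
    rw [hDx, hA t (hφU (hball ht))]
  have hF' : ∀ p, ∀ t ∈ W, (F p).map (T t).toLinearMap = Y.F (f p) (φ t) := by
    intro p t ht
    ext u
    constructor
    · rintro ⟨h, hh, rfl⟩
      exact (hF p t (hball ht) h).1 hh
    · intro hu
      refine ⟨(T t).symm u, (hF p t (hball ht) _).2 ?_, (T t).apply_symm_apply u⟩
      rwa [(T t).apply_symm_apply]
  have hv : ∀ t ∈ W, Y.F (f p₀) (φ t) = Submodule.span ℂ {T t 1} := by
    intro t ht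
    rw [← hF' p₀ t ht, hG0, Submodule.map_span, Set.image_singleton]
    rfl
  -- transport
  have htr : ∀ t ∈ W, ∀ t' ∈ W, ∀ h, T t h = T t' (ex n (c (t - t')) * h) := by
    intro t ht t' ht' h
    have e1 : t + (t' - t) = t' := by abel
    have h2 := transport hT hWo hWc ht (x := t' - t) (by rw [e1]; exact ht') h (hpow _)
    rw [e1] at h2
    rw [h2]
    congr 1
    unfold ex
    rw [Finset.sum_mul]
    refine Finset.sum_congr rfl fun k _ => ?_
    have e2 : c (t' - t) = -c (t - t') := by rw [← map_neg, neg_sub]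
    rw [e2, neg_pow (c (t - t')) k, smul_mul_assoc]
    have e3 : ((-1 : H) ^ k * c (t - t') ^ k) * h = ((-1 : ℂ) ^ k) • (c (t - t') ^ k * h) := by
      rw [Algebra.smul_def, map_pow, map_neg, map_one]; ring
    rw [e3, smul_smul]
    congr 1
    rw [div_mul_eq_mul_div, ← pow_add, ← two_mul, pow_mul]
    norm_num
  let e := T t₀
  have hcR : ∀ x, c x ∈ R := by
    intro x
    rw [hR]
    exact Algebra.subset_adjoin ⟨x, rfl⟩
  have hexR : ∀ x, ex n (c x) ∈ R := by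
    intro x
    unfold ex
    exact R.sum_mem fun k _ => R.smul_mem (R.pow_mem (hcR x) k) _
  let ER : Submodule ℂ E := (Subalgebra.toSubmodule R).map e.toLinearMap
  have hERt : ∀ t ∈ W, ∀ h ∈ R, T t h ∈ ER := by
    intro t ht h hh
    rw [htr t ht t₀ ht₀W h]
    exact ⟨_, R.mul_mem (hexR _) hh, rfl⟩
  -- `ER` is flat
  let E₁ : Submodule ℂ E := ⨆ m, Y.F (f p₀) m
  have hE₁ : ∀ γ, ∀ u ∈ E₁, Y.ρ γ u ∈ E₁ := by
    intro γ u hu
    have h1 : E₁ ≤ E₁.comap (Y.ρ γ).toLinearMap := by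
      refine iSup_le fun m => ?_
      intro u hu
      exact (le_iSup (fun m => Y.F (f p₀) m) (γ • m)) ((Y.equivariant γ (f p₀) m u).2 hu)
    exact h1 hu
  have hvE₁ : ∀ t ∈ W, T t 1 ∈ E₁ := by
    intro t ht
    have : T t 1 ∈ Y.F (f p₀) (φ t) := by
      rw [hv t ht]
      exact Submodule.mem_span_singleton_self _
    exact (le_iSup (fun m => Y.F (f p₀) m) (φ t)) this
  have hopen : IsOpen (φ '' W) := φ.isOpen_image_of_subset_source hWo hball
  have hne : (φ '' W).Nonempty := ⟨φ t₀, t₀, ht₀W, rfl⟩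
  -- a subspace that contains all vectors `T t 1` contains `ER`
  have hgenN : ∀ N : Submodule ℂ E, (∀ t ∈ W, T t 1 ∈ N) → ER ≤ N := by
    rintro N hN _ ⟨r, hr, rfl⟩
    have hr' : r ∈ Algebra.adjoin ℂ (Set.range c) := hR ▸ hr
    have := adjoin_mul_mem_of_forall hT hWo N hr' hN t₀ ht₀W
    rwa [mul_one] at this
  have hER1 : ER = E₁ := by
    apply le_antisymm (hgenN E₁ hvE₁)
    refine iSup_le fun m => ?_
    have h2 := map_mem_of_open (M := M) (Y.holomorphic (f p₀))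
      (isHolomorphicSubbundle_const ER) LinearMap.id hopen hne (by
        rintro _ ⟨t, ht, rfl⟩ u hu
        rw [hv t ht] at hu
        obtain ⟨α, rfl⟩ := Submodule.mem_span_singleton.1 hu
        exact ER.smul_mem _ (hERt t ht 1 R.one_mem)) m
    exact h2
  have hERΓ : ∀ γ, ∀ u ∈ ER, Y.ρ γ u ∈ ER := by rw [hER1]; exact hE₁
  -- `ER` is irreducible
  have hcont : ContinuousOn (fun t => T t 1) W := by
    intro t ht
    obtain ⟨D, hD, -⟩ := hT t ht 1
    exact hD.continuousAt.continuousWithinAt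
  have himg : IsPreconnected ((fun t => T t (1 : H)) '' W) :=
    hWc.isPreconnected.image _ hcont
  have hirr : ∀ N : Submodule ℂ E, N ≤ ER → (∀ γ, ∀ u ∈ N, Y.ρ γ u ∈ N) → N = ⊥ ∨ N = ER := by
    intro N hN hNΓ
    obtain ⟨N', hN', hcomp, hFN⟩ := hY N hNΓ
    have hor : ∀ t ∈ W, T t 1 ∈ N ∨ T t 1 ∈ N' := by
      intro t ht
      have h1 := hFN (f p₀) (φ t)
      have h2 : T t 1 ∈ (Y.F (f p₀) (φ t) ⊓ N) ⊔ (Y.F (f p₀) (φ t) ⊓ N') := by
        rw [← h1, hv t ht]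
        exact Submodule.mem_span_singleton_self _
      obtain ⟨x, hx, y, hy, hxy⟩ := Submodule.mem_sup.1 h2
      rw [hv t ht] at hx hy
      obtain ⟨α, hα⟩ := Submodule.mem_span_singleton.1 hx.1
      by_cases hα0 : α = 0
      · right
        rw [← hxy, ← hα, hα0, zero_smul, zero_add]
        exact hy.2
      · left
        have h3 : α⁻¹ • x ∈ N := N.smul_mem _ hx.2
        rwa [← hα, smul_smul, inv_mul_cancel₀ hα0, one_smul] at h3
    have hcl : IsClosed (N : Set E) := Submodule.closed_of_finiteDimensional N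
    have hcl' : IsClosed (N' : Set E) := Submodule.closed_of_finiteDimensional N'
    have hpre := isPreconnected_closed_iff.1 himg (N : Set E) (N' : Set E) hcl hcl' (by
      rintro _ ⟨t, ht, rfl⟩
      exact hor t ht)
    by_cases hall : ∀ t ∈ W, T t 1 ∈ N'
    · left
      have h1 : N ≤ N' := hN.trans (hgenN N' hall)
      rw [eq_bot_iff, ← hcomp.inf_eq_bot]
      exact le_inf le_rfl h1
    · right
      push Not at hall
      obtain ⟨t₁, ht₁, ht₁N'⟩ := hall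
      have ht₁N : T t₁ 1 ∈ N := (hor t₁ ht₁).resolve_right ht₁N'
      refine le_antisymm hN (hgenN N fun t ht => ?_)
      by_contra hcon
      have htN' : T t 1 ∈ N' := (hor t ht).resolve_left hcon
      obtain ⟨_, ⟨t₂, ht₂, rfl⟩, ht₂N, ht₂N'⟩ := hpre ⟨_, ⟨t₁, ht₁, rfl⟩, ht₁N⟩
        ⟨_, ⟨t, ht, rfl⟩, htN'⟩
      have h0 : T t₂ 1 = 0 := Submodule.disjoint_def.1 hcomp.disjoint _ ht₂N ht₂N'
      exact one_ne_zero ((T t₂).map_eq_zero_iff.1 h0)
  -- the operators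
  let 𝔞 : Set (Module.End ℂ E) :=
    {X | (∀ u ∈ ER, X u ∈ ER) ∧ ∀ m, ∀ u ∈ Y.F (f p₀) m, X u ∈ Y.F (f p₁) m}
  have hconj : ∀ γ, ∀ X ∈ 𝔞, (Y.ρ γ).toLinearMap ∘ₗ X ∘ₗ (Y.ρ γ⁻¹).toLinearMap ∈ 𝔞 := by
    rintro γ X ⟨hX1, hX2⟩
    refine ⟨fun u hu => hERΓ γ _ (hX1 _ (hERΓ γ⁻¹ _ hu)), fun m u hu => ?_⟩
    have h1 := (Y.equivariant γ⁻¹ (f p₀) m u).2 hu
    have h2 := hX2 _ _ h1
    have h3 := (Y.equivariant γ (f p₁) (γ⁻¹ • m) _).2 h2
    rwa [smul_inv_smul] at h3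
  -- elements of `𝔞` give elements of `Str`
  have hpowR : ∀ a ∈ 𝒱 1, a ^ (n + 1) = 0 := by
    intro a ha
    obtain ⟨x, hx⟩ := (h1 a).1 ha
    refine Subtype.ext ?_
    rw [SubmonoidClass.coe_pow, ← hx, hpow]
    rfl
  have hcoe : ∀ a : R, ((ex n a : R) : H) = ex n (a : H) := fun a => map_ex R.val n a
  have hto : ∀ X ∈ 𝔞, ∃ Z ∈ Str 𝒱, ∀ r : R, X (e (r : H)) = e ((Z r : R) : H) := by
    rintro X ⟨hX1, hX2⟩
    have hmem : ∀ r : R, e.symm (X (e (r : H))) ∈ R := by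
      intro r
      obtain ⟨r', hr', hr''⟩ := hX1 (e (r : H)) ⟨r, r.2, rfl⟩
      rw [← hr'']
      change e.symm (e r') ∈ R
      rw [e.symm_apply_apply]
      exact hr'
    let Z : Module.End ℂ R :=
      { toFun := fun r => ⟨e.symm (X (e (r : H))), hmem r⟩
        map_add' := by
          intro r r'
          refine Subtype.ext ?_
          simp only [Subalgebra.coe_add, map_add]
        map_smul' := by
          intro z r
          refine Subtype.ext ?_
          simp only [Subalgebra.coe_smul, map_smul, RingHom.id_apply] }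
    have hZ : ∀ r : R, X (e (r : H)) = e ((Z r : R) : H) := by
      intro r
      change X (e (r : H)) = e (e.symm (X (e (r : H))))
      rw [e.apply_symm_apply]
    refine ⟨Z, ExpC.mem_Str hpowR (expC_of_small Z fun a ha => ?_), hZ⟩
    obtain ⟨x, hx⟩ := (h1 a).1 ha
    have hcont : Continuous (fun s : ℂ => t₀ + s • x) := by fun_prop
    have hnhds : (fun s : ℂ => t₀ + s • x) ⁻¹' W ∈ 𝓝 (0 : ℂ) :=
      (hWo.preimage hcont).mem_nhds (by simpa using ht₀W)
    refine ⟨_, infinite_of_mem_nhds (0 : ℂ) hnhds, fun s hs => ?_⟩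
    have hsW : t₀ + s • x ∈ W := hs
    rw [hB]
    -- the value
    have ht1 : T (t₀ + s • x) 1 = e ((ex n (s • a) : R) : H) := by
      rw [htr _ hsW t₀ ht₀W, mul_one, hcoe]
      congr 2
      rw [add_sub_cancel_left, map_smul, hx]
      rfl
    have h2 : X (T (t₀ + s • x) 1) ∈ Y.F (f p₁) (φ (t₀ + s • x)) := by
      refine hX2 _ _ ?_
      rw [hv _ hsW]
      exact Submodule.mem_span_singleton_self _
    rw [ht1, hZ] at h2
    have h3 : e ((Z (ex n (s • a)) : R) : H) =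
        T (t₀ + s • x) (((ex n (-(s • a)) * Z (ex n (s • a)) : R)) : H) := by
      have h4 := htr t₀ ht₀W _ hsW ((Z (ex n (s • a)) : R) : H)
      rw [show e ((Z (ex n (s • a)) : R) : H) = T t₀ ((Z (ex n (s • a)) : R) : H) from rfl, h4]
      congr 1
      rw [MulMemClass.coe_mul, hcoe]
      congr 2
      rw [sub_add_cancel_left, map_neg, map_smul, hx]
      rfl
    rw [h3] at h2
    exact (hF p₁ _ (hball hsW) _).2 h2
  -- elements of `Str` give elements of `𝔞`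
  obtain ⟨π, hπ⟩ := LinearMap.exists_leftInverse_of_injective
    (R.val.toLinearMap) (LinearMap.ker_eq_bot.2 Subtype.val_injective)
  have hπ' : ∀ r : R, π (r : H) = r := fun r => congrArg (fun g : R →ₗ[ℂ] R => g r) hπ
  have hfrom : ∀ Z ∈ Str 𝒱, ∃ X ∈ 𝔞, ∀ r : R, X (e (r : H)) = e ((Z r : R) : H) := by
    intro Z hZ
    let X : Module.End ℂ E :=
      e.toLinearMap ∘ₗ R.val.toLinearMap ∘ₗ Z ∘ₗ π ∘ₗ e.symm.toLinearMap
    have hX : ∀ r : R, X (e (r : H)) = e ((Z r : R) : H) := by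
      intro r
      change e ((Z (π (e.symm (e (r : H)))) : R) : H) = _
      rw [e.symm_apply_apply, hπ']
    refine ⟨X, ⟨?_, ?_⟩, hX⟩
    · rintro _ ⟨r, hr, rfl⟩
      have := hX ⟨r, hr⟩
      change X (e r) ∈ ER
      rw [show X (e r) = e ((Z ⟨r, hr⟩ : R) : H) from this]
      exact ⟨_, (Z ⟨r, hr⟩).2, rfl⟩
    · intro m
      refine map_mem_of_open (M := M) (Y.holomorphic (f p₀)) (Y.holomorphic (f p₁)) X hopen hne
        ?_ m
      rintro _ ⟨t, ht, rfl⟩ u hu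
      rw [hv t ht] at hu
      obtain ⟨α, rfl⟩ := Submodule.mem_span_singleton.1 hu
      rw [map_smul]
      refine (Y.F (f p₁) (φ t)).smul_mem _ ?_
      let a : R := ⟨c (t - t₀), hcR _⟩
      have ha : a ∈ 𝒱 1 := (h1 a).2 ⟨t - t₀, rfl⟩
      have h2 := expC_of_mem hpowR hZ a ha
      rw [hB] at h2
      have h3 := (hF p₁ t (hball ht) _).1 h2
      have h4 : T t 1 = e ((ex n a : R) : H) := by
        rw [htr t ht t₀ ht₀W, mul_one, hcoe]
      rw [h4, hX]
      have h5 : e ((Z (ex n a) : R) : H) = T t (((ex n (-a) * Z (ex n a) : R)) : H) := by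
        have h6 := htr t₀ ht₀W t ht ((Z (ex n a) : R) : H)
        rw [show e ((Z (ex n a) : R) : H) = T t₀ ((Z (ex n a) : R) : H) from rfl, h6]
        congr 1
        rw [MulMemClass.coe_mul, hcoe]
        congr 2
        change c (t₀ - t) = -c (t - t₀)
        rw [← map_neg, neg_sub]
      rw [h5]
      exact h3
  -- the complement
  intro N hN
  let j : R →ₗ[ℂ] E := e.toLinearMap ∘ₗ R.val.toLinearMap
  have hj : ∀ r : R, j r = e (r : H) := fun r => rfl
  have hjinj : Function.Injective j := fun r r' h => Subtype.ext (e.injective h)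
  have hNE : N.map j ≤ ER := by
    rintro _ ⟨r, -, rfl⟩
    exact ⟨r, r.2, rfl⟩
  have hNS : Stab 𝔞 (N.map j) := by
    rintro X hX _ ⟨r, hr, rfl⟩
    obtain ⟨Z, hZ, hZr⟩ := hto X hX
    rw [hj, hZr]
    exact ⟨Z r, hN Z hZ r hr, rfl⟩
  obtain ⟨N', hN'W, hN'S, hdisj, hsup⟩ := exists_stable_complement (ρ := Y.ρ) hconj ER
    (fun X hX => hX.1) hERΓ hirr (N.map j) hNE hNS
  refine ⟨N'.comap j, ?_, ?_⟩
  · intro Z hZ r hr
    obtain ⟨X, hX, hXr⟩ := hfrom Z hZ
    change j (Z r) ∈ N'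
    rw [hj, ← hXr]
    exact hN'S X hX _ hr
  · constructor
    · rw [Submodule.disjoint_def]
      intro r hr hr'
      have h2 : j r ∈ N.map j ⊓ N' := ⟨⟨r, hr, rfl⟩, hr'⟩
      rw [hdisj, Submodule.mem_bot] at h2
      exact hjinj (by rw [h2, map_zero])
    · rw [codisjoint_iff, eq_top_iff]
      rintro r -
      have h2 : j r ∈ N.map j ⊔ N' := by
        rw [hsup]; exact ⟨r, r.2, rfl⟩
      obtain ⟨_, ⟨r₁, hr₁, rfl⟩, u, hu, hru⟩ := Submodule.mem_sup.1 h2
      obtain ⟨r₂, hr₂, hr₂u⟩ := hN'W hu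
      have hu' : j ⟨r₂, hr₂⟩ = u := hr₂u
      refine Submodule.mem_sup.2 ⟨r₁, hr₁, ⟨r₂, hr₂⟩, ?_, ?_⟩
      · change j ⟨r₂, hr₂⟩ ∈ N'
        rw [hu']; exact hu
      · apply hjinj
        rw [map_add, hu', hru]

end Pool.Agent.KS6_76.GWJ
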