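import Pool.Agent.KS6_76.GWJ.Geo

/-!
# The grading of the subalgebra generated by degree one
-/

set_option autoImplicit false

namespace Pool.Agent.KS6_76.GWJ

open DirectSum

theorem br_br_apply {R : Type*} [CommRing R] [Algebra ℂ R] (Z : Module.End ℂ R) (a b x : R) :
    br (br Z a) b x = Z (a * b * x) - a * Z (b * x) - b * Z (a * x) + a * b * Z x := by
  rw [br_apply, br_apply, br_apply, mul_assoc a b x]
  ring

/-- Elements of degree `-1` of the structure algebra define a triple product. -/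
theorem triple {R : Type*} [CommRing R] [Algebra ℂ R] {𝒱 : ℕ → Submodule ℂ R} [GradedAlgebra 𝒱]
    {n : ℕ} (hgen : Algebra.adjoin ℂ (𝒱 1 : Set R) = ⊤) (htop : ∀ k, n < k → 𝒱 k = ⊥)
    {Z : Module.End ℂ R} (hZ : Z ∈ Str 𝒱) (hh : IsHom 𝒱 (-1) Z) {a b : R} (ha : a ∈ 𝒱 1)
    (hb : b ∈ 𝒱 1) : ∃ q ∈ 𝒱 1, ∀ x,
      Z (a * b * x) - a * Z (b * x) - b * Z (a * x) + a * b * Z x = q * x := by
  have h1 : IsHom 𝒱 1 (br (br Z a) b) := by
    have h3 := (hh.br ha).br hb
    have e : (-1 : ℤ) + 1 + 1 = 1 := by norm_num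
    rwa [e] at h3
  have h2 := eq_mulLeft_of_one hgen htop (br_mem (br_mem hZ ha) hb) h1
  refine ⟨_, h2.2, fun x => ?_⟩
  rw [← br_br_apply]
  conv_lhs => rw [h2.1]
  rfl

variable {H : Type*} [CommRing H] [Algebra ℂ H]

/-- The part of degree `k` of the subalgebra generated by `dg 1`. -/
def gr (dg : ℕ → Submodule ℂ H) (k : ℕ) : Submodule ℂ (Algebra.adjoin ℂ (dg 1 : Set H)) :=
  (dg k).comap (Algebra.adjoin ℂ (dg 1 : Set H)).val.toLinearMap

theorem mem_gr {dg : ℕ → Submodule ℂ H} {k : ℕ} {r : Algebra.adjoin ℂ (dg 1 : Set H)} :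
    r ∈ gr dg k ↔ (r : H) ∈ dg k := Iff.rfl

variable {dg : ℕ → Submodule ℂ H}

theorem gr_gradedMonoid (h0 : (1 : H) ∈ dg 0)
    (hmul : ∀ i j, ∀ x ∈ dg i, ∀ y ∈ dg j, x * y ∈ dg (i + j)) : SetLike.GradedMonoid (gr dg) where
  one_mem := h0
  mul_mem {i j} a b ha hb := hmul i j _ ha _ hb

theorem gr_internal (h0 : (1 : H) ∈ dg 0)
    (hmul : ∀ i j, ∀ x ∈ dg i, ∀ y ∈ dg j, x * y ∈ dg (i + j)) (hind : iSupIndep dg) :
    DirectSum.IsInternal (gr dg) := by
  rw [DirectSum.isInternal_submodule_iff_iSupIndep_and_iSup_eq_top]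
  constructor
  · rw [iSupIndep_def]
    intro i
    rw [Submodule.disjoint_def]
    intro x hx hx'
    have h1 : (x : H) ∈ ⨆ j, ⨆ (_ : j ≠ i), dg j := by
      have h2 : (⨆ j, ⨆ (_ : j ≠ i), gr dg j) ≤ (⨆ j, ⨆ (_ : j ≠ i), dg j).comap
          (Algebra.adjoin ℂ (dg 1 : Set H)).val.toLinearMap := by
        refine iSup₂_le fun j hj => ?_
        intro y hy
        exact (le_iSup₂_of_le (f := fun j (_ : j ≠ i) => dg j) j hj le_rfl) hy
      exact h2 hx'
    have h3 := Submodule.disjoint_def.1 ((iSupIndep_def.1 hind) i) (x : H) hx h1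
    exact Subtype.ext h3
  · rw [eq_top_iff]
    rintro ⟨x, hx⟩ -
    have hmulsup : ∀ a ∈ ⨆ k, gr dg k, ∀ b ∈ ⨆ k, gr dg k, a * b ∈ ⨆ k, gr dg k := by
      intro a ha b hb
      induction ha using Submodule.iSup_induction' with
      | mem i a ha =>
        induction hb using Submodule.iSup_induction' with
        | mem j b hb =>
          exact Submodule.mem_iSup_of_mem (i + j) (hmul i j _ ha _ hb)
        | zero => rw [mul_zero]; exact Submodule.zero_mem _
        | add b b' _ _ hb hb' => rw [mul_add]; exact Submodule.add_mem _ hb hb'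
      | zero => rw [zero_mul]; exact Submodule.zero_mem _
      | add a a' _ _ ha ha' => rw [add_mul]; exact Submodule.add_mem _ ha ha'
    refine Algebra.adjoin_induction
      (p := fun x hx => (⟨x, hx⟩ : Algebra.adjoin ℂ (dg 1 : Set H)) ∈ ⨆ k, gr dg k)
      ?_ ?_ ?_ ?_ hx
    · intro a ha
      exact Submodule.mem_iSup_of_mem 1 (by exact ha)
    · intro z
      refine Submodule.mem_iSup_of_mem 0 ?_
      change algebraMap ℂ H z ∈ dg 0
      rw [Algebra.algebraMap_eq_smul_one]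
      exact Submodule.smul_mem _ _ h0
    · intro a b _ _ ha hb
      exact Submodule.add_mem _ ha hb
    · intro a b _ _ ha hb
      exact hmulsup _ ha _ hb

theorem gr_zero (h0 : dg 0 = Submodule.span ℂ {1}) : gr dg 0 = Submodule.span ℂ {1} := by
  ext r
  rw [mem_gr, h0, Submodule.mem_span_singleton, Submodule.mem_span_singleton]
  constructor
  · rintro ⟨a, ha⟩
    exact ⟨a, Subtype.ext ha⟩
  · rintro ⟨a, rfl⟩
    exact ⟨a, rfl⟩

theorem gr_adjoin : Algebra.adjoin ℂ (gr dg 1 : Set (Algebra.adjoin ℂ (dg 1 : Set H))) = ⊤ :=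
  Algebra.adjoin_adjoin_coe_preimage

theorem gr_top {n : ℕ} (hbot : ∀ k, n < k → ∀ x ∈ dg k, x = 0) (k : ℕ) (hk : n < k) :
    gr dg k = ⊥ := by
  rw [eq_bot_iff]
  intro r hr
  rw [Submodule.mem_bot]
  exact Subtype.ext (hbot k hk _ hr)

theorem mem_gr_sup (h0 : dg 0 = Submodule.span ℂ {1}) (r : Algebra.adjoin ℂ (dg 1 : Set H)) :
    r ∈ gr dg 0 ⊔ gr dg 1 ↔ (r : H) ∈ dg 0 ⊔ dg 1 := by
  constructor
  · intro h
    obtain ⟨a, ha, b, hb, rfl⟩ := Submodule.mem_sup.1 h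
    exact Submodule.add_mem_sup ha hb
  · intro h
    obtain ⟨a, ha, b, hb, hab⟩ := Submodule.mem_sup.1 h
    have haR : a ∈ Algebra.adjoin ℂ (dg 1 : Set H) := by
      rw [h0] at ha
      obtain ⟨z, rfl⟩ := Submodule.mem_span_singleton.1 ha
      exact Subalgebra.smul_mem _ (Subalgebra.one_mem _) _
    have hbR : b ∈ Algebra.adjoin ℂ (dg 1 : Set H) := Algebra.subset_adjoin hb
    exact Submodule.mem_sup.2 ⟨⟨a, haR⟩, ha, ⟨b, hbR⟩, hb, Subtype.ext hab⟩

end Pool.Agent.KS6_76.GWJ
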