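import Pool.Agent.KS6_76.GWJ.Gr
import Pool.Graph.R_seed8.Y348.GW.Crit

/-!
# The criterion for cohomology rings
-/

set_option autoImplicit false

open scoped Manifold Topology

namespace Pool.Agent.KS6_76.GWJ

open H956GW Pool.Agent.Y348.GW

variable {H : Type} [CommRing H] [Algebra ℂ H]

theorem filt_two (dg : ℕ → Submodule ℂ H) : filt dg 2 = dg 0 ⊔ dg 1 := by
  apply le_antisymm
  · refine iSup₂_le fun k hk => ?_
    have : k = 0 ∨ k = 1 := by omega
    rcases this with rfl | rfl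
    · exact le_sup_left
    · exact le_sup_right
  · exact sup_le (le_filt (by norm_num)) (le_filt (by norm_num))

/-- The variation defined by a cohomology ring with vanishing Gromov–Witten invariants in nonzero
classes: local equivalence to a subquotient of a semisimple variation makes the subring generated by
`H²` a semisimple module over its structure algebra. -/
theorem SS_of_semisimple.{u₁, u₂, u₃, u₄} {n : ℕ} {dg : ℕ → Submodule ℂ H} [Module.Finite ℂ H]
    [Nontrivial H] (hd0 : dg 0 = Submodule.span ℂ {1})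
    (hmul : ∀ i j, ∀ x ∈ dg i, ∀ y ∈ dg j, x * y ∈ dg (i + j))
    (hbot : ∀ k, n < k → ∀ x ∈ dg k, x = 0) (I : H →ₗ[ℂ] ℂ)
    (hPD : ∀ x : H, (∀ y : H, I (x * y) = 0) → x = 0)
    (B : Type) [AddCommGroup B] (g : GWNumbers B H) (hg : g.IsAspherical I)
    (A : H → H → H → H) (hA : IsGWConnection I (dg 1) g.prepotential A)
    (S : Type) [NormedAddCommGroup S] [NormedSpace ℂ S] (c : S ≃ₗ[ℂ] dg 1) (t₀ : S)
    (hloc : IsLocallySubquotientOfSemisimple.{u₁, u₂, u₃, u₄} (fun t v h => A (c t) (c v) h)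
      (filt dg) t₀) : SS (gr dg) := by
  obtain ⟨G, _, _, M, _, _, _, _, Γ, _, _, E, _, _, E', _, _, X, Y, m₀, hX, hY, hloc⟩ := hloc
  have h10 : (1 : H) ∈ dg 0 := by rw [hd0]; exact Submodule.mem_span_singleton_self _
  have : FiniteDimensional ℂ E' := by
    obtain ⟨-, T, -⟩ := hloc
    exact LinearEquiv.finiteDimensional (T t₀)
  let c' : S →ₗ[ℂ] H := (dg 1).subtype ∘ₗ c.toLinearMap
  have hc' : ∀ v, c' v ∈ dg 1 := fun v => (c v).2
  have hrange : Set.range c' = (dg 1 : Set H) := by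
    ext x
    constructor
    · rintro ⟨v, rfl⟩; exact hc' v
    · intro hx
      refine ⟨c.symm ⟨x, hx⟩, ?_⟩
      change ((c (c.symm ⟨x, hx⟩) : dg 1) : H) = x
      rw [c.apply_symm_apply]
  have hpow : ∀ v k, c' v ^ k ∈ dg k := by
    intro v k
    induction k with
    | zero => rw [pow_zero]; exact h10
    | succ k ih => rw [pow_succ]; exact hmul _ _ _ ih _ (hc' v)
  refine SS_of_locallyEquivalent c' n (fun x => hbot _ (Nat.lt_succ_self n) _ (hpow x _)) Set.univ
    _ (fun t _ v h => connection_eq g hg hPD hA (hc' t) (hc' v) h) (filt dg) (p₀ := 0) (p₁ := 2)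
    (by rw [filt_zero, hd0]) t₀ Y (hX.subquotient hY) m₀ hloc (by rw [hrange]) (gr dg) ?_ ?_
  · intro r
    rw [mem_gr, hrange]
    rfl
  · intro r
    rw [mem_gr_sup hd0, filt_two]

section consequences

variable {n : ℕ} {dg : ℕ → Submodule ℂ H}

theorem integral_eq_zero_of_gr (h0 : (1 : H) ∈ dg 0)
    (hmul : ∀ i j, ∀ x ∈ dg i, ∀ y ∈ dg j, x * y ∈ dg (i + j)) (I : H →ₗ[ℂ] ℂ)
    (hI : ∀ k, k ≠ n → ∀ x ∈ dg k, I x = 0) {k : ℕ} (hk : k ≤ n) {b : H} (hb : b ∈ dg k)
    (h : ∀ a ∈ Algebra.adjoin ℂ (dg 1 : Set H), a ∈ dg (n - k) → I (a * b) = 0) :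
    ∀ a ∈ Algebra.adjoin ℂ (dg 1 : Set H), I (a * b) = 0 := by
  intro a ha
  have key : ∀ a : Algebra.adjoin ℂ (dg 1 : Set H), a ∈ ⨆ k, gr dg k → I ((a : H) * b) = 0 := by
    intro a ha
    induction ha using Submodule.iSup_induction' with
    | mem i a ha =>
      by_cases hi : i = n - k
      · subst hi
        exact h a a.2 ha
      · refine hI (i + k) (by omega) _ (hmul i k _ ha _ hb)
    | zero => rw [Subalgebra.coe_zero, zero_mul, map_zero]
    | add a a' _ _ ha ha' => rw [Subalgebra.coe_add, add_mul, map_add, ha, ha', add_zero]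
  refine key ⟨a, ha⟩ ?_
  have hmulsup : ∀ a ∈ ⨆ k, gr dg k, ∀ b ∈ ⨆ k, gr dg k, a * b ∈ ⨆ k, gr dg k := by
    intro a ha b hb
    induction ha using Submodule.iSup_induction' with
    | mem i a ha =>
      induction hb using Submodule.iSup_induction' with
      | mem j b hb => exact Submodule.mem_iSup_of_mem (i + j) (hmul i j _ ha _ hb)
      | zero => rw [mul_zero]; exact Submodule.zero_mem _
      | add b b' _ _ hb hb' => rw [mul_add]; exact Submodule.add_mem _ hb hb'
    | zero => rw [zero_mul]; exact Submodule.zero_mem _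
    | add a a' _ _ ha ha' => rw [add_mul]; exact Submodule.add_mem _ ha ha'
  refine Algebra.adjoin_induction
    (p := fun x hx => (⟨x, hx⟩ : Algebra.adjoin ℂ (dg 1 : Set H)) ∈ ⨆ k, gr dg k)
    ?_ ?_ ?_ ?_ ha
  · intro a ha
    exact Submodule.mem_iSup_of_mem 1 (by exact ha)
  · intro z
    refine Submodule.mem_iSup_of_mem 0 ?_
    change algebraMap ℂ H z ∈ dg 0
    rw [Algebra.algebraMap_eq_smul_one]
    exact Submodule.smul_mem _ _ h0
  · intro a b _ _ ha hb
    exact Submodule.add_mem _ ha hb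
  · intro a b _ _ ha hb
    exact hmulsup _ ha _ hb

/-- If the subring generated by `H²` satisfies Poincaré duality, its parts of complementary degrees
have the same dimension. -/
theorem finrank_gr_le [Module.Finite ℂ H] (h0 : (1 : H) ∈ dg 0)
    (hmul : ∀ i j, ∀ x ∈ dg i, ∀ y ∈ dg j, x * y ∈ dg (i + j)) (I : H →ₗ[ℂ] ℂ)
    (hI : ∀ k, k ≠ n → ∀ x ∈ dg k, I x = 0)
    (hRPD : ∀ b ∈ Algebra.adjoin ℂ (dg 1 : Set H),
      (∀ a ∈ Algebra.adjoin ℂ (dg 1 : Set H), I (a * b) = 0) → b = 0) {k : ℕ} (hk : k ≤ n) :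
    Module.finrank ℂ (gr dg k) ≤ Module.finrank ℂ (gr dg (n - k)) := by
  let p : gr dg k →ₗ[ℂ] Module.Dual ℂ (gr dg (n - k)) :=
    { toFun := fun b =>
        { toFun := fun a => I (((a : Algebra.adjoin ℂ (dg 1 : Set H)) : H) *
            ((b : Algebra.adjoin ℂ (dg 1 : Set H)) : H))
          map_add' := by
            intro a a'
            simp only [Submodule.coe_add, Subalgebra.coe_add, add_mul, map_add]
          map_smul' := by
            intro z a
            simp only [Submodule.coe_smul, Subalgebra.coe_smul, smul_mul_assoc, map_smul,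
              RingHom.id_apply] }
      map_add' := by
        intro b b'
        ext a
        simp only [Submodule.coe_add, Subalgebra.coe_add, mul_add, map_add, LinearMap.coe_mk,
          AddHom.coe_mk, LinearMap.add_apply]
      map_smul' := by
        intro z b
        ext a
        simp only [Submodule.coe_smul, Subalgebra.coe_smul, mul_smul_comm, map_smul,
          LinearMap.coe_mk, AddHom.coe_mk, LinearMap.smul_apply, RingHom.id_apply] }
  have hp : Function.Injective p := by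
    rw [← LinearMap.ker_eq_bot, eq_bot_iff]
    intro b hb
    rw [Submodule.mem_bot]
    refine Subtype.ext (Subtype.ext ?_)
    have hb' : ∀ a : gr dg (n - k), I (((a : Algebra.adjoin ℂ (dg 1 : Set H)) : H) *
        ((b : Algebra.adjoin ℂ (dg 1 : Set H)) : H)) = 0 := by
      intro a
      have : p b a = 0 := by rw [LinearMap.mem_ker.1 hb]; rfl
      exact this
    refine hRPD _ b.1.2 (integral_eq_zero_of_gr h0 hmul I hI hk b.2 ?_)
    intro a ha ha'
    exact hb' ⟨⟨a, ha⟩, ha'⟩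
  have h1 := LinearMap.finrank_le_finrank_of_injective hp
  rwa [Subspace.dual_finrank_eq] at h1

/-- The Jordan structure of the subring generated by `H²`. -/
theorem jordan_structure [Module.Finite ℂ H] (hd0 : dg 0 = Submodule.span ℂ {1})
    (hmul : ∀ i j, ∀ x ∈ dg i, ∀ y ∈ dg j, x * y ∈ dg (i + j))
    (hbot : ∀ k, n < k → ∀ x ∈ dg k, x = 0) (hind : iSupIndep dg) (hSS : SS (gr dg))
    (l : dg 1 →ₗ[ℂ] ℂ) :
    ∃ f : Algebra.adjoin ℂ (dg 1 : Set H) →ₗ[ℂ] Algebra.adjoin ℂ (dg 1 : Set H),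
    (∀ k, ∀ x : Algebra.adjoin ℂ (dg 1 : Set H), (x : H) ∈ dg (k + 1) → (f x : H) ∈ dg k) ∧
    (∀ x : Algebra.adjoin ℂ (dg 1 : Set H), (x : H) ∈ dg 0 → f x = 0) ∧
    (∀ a : Algebra.adjoin ℂ (dg 1 : Set H), ∀ ha : (a : H) ∈ dg 1, f a = l ⟨a, ha⟩ • 1) ∧
    ∀ a b : Algebra.adjoin ℂ (dg 1 : Set H), (a : H) ∈ dg 1 → (b : H) ∈ dg 1 →
      ∃ q : Algebra.adjoin ℂ (dg 1 : Set H), (q : H) ∈ dg 1 ∧
        ∀ x, f (a * b * x) - a * f (b * x) - b * f (a * x) + a * b * f x = q * x := by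
  have h10 : (1 : H) ∈ dg 0 := by rw [hd0]; exact Submodule.mem_span_singleton_self _
  have : SetLike.GradedMonoid (gr dg) := gr_gradedMonoid h10 hmul
  have hint := gr_internal h10 hmul hind
  let : GradedAlgebra (gr dg) := hint.gradedAlgebra
  have g0 := gr_zero hd0
  have gtop := gr_top hbot
  let l' : Module.Dual ℂ (gr dg 1) :=
    { toFun := fun a => l ⟨a.1, a.2⟩
      map_add' := fun a b => by
        rw [← map_add]; rfl
      map_smul' := fun z a => by
        rw [RingHom.id_apply, ← map_smul]; rfl }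
  obtain ⟨Z, hZ, hh, hl⟩ := jordan g0 gr_adjoin gtop hSS l'
  refine ⟨Z, ?_, ?_, ?_, ?_⟩
  · intro k x hx
    have h1 := hh (k + 1) x hx
    have e : ((k + 1 : ℕ) : ℤ) + -1 = (k : ℕ) := by push_cast; ring
    rw [e] at h1
    exact h1
  · intro x hx
    have h1 := hh 0 x hx
    rw [zpart_neg (by norm_num)] at h1
    exact (Submodule.mem_bot ℂ).1 h1
  · intro a ha
    exact hl ⟨a, ha⟩
  · intro a b ha hb
    exact triple (R := Algebra.adjoin ℂ (dg 1 : Set H)) (𝒱 := gr dg) gr_adjoin gtop hZ hh ha hb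

/-- Hard Lefschetz for the subring generated by `H²`. -/
theorem hard_lefschetz_bijective [Module.Finite ℂ H] (hd0 : dg 0 = Submodule.span ℂ {1})
    (hmul : ∀ i j, ∀ x ∈ dg i, ∀ y ∈ dg j, x * y ∈ dg (i + j))
    (hbot : ∀ k, n < k → ∀ x ∈ dg k, x = 0) (hind : iSupIndep dg) (hSS : SS (gr dg))
    (I : H →ₗ[ℂ] ℂ) (hI : ∀ k, k ≠ n → ∀ x ∈ dg k, I x = 0)
    (hPD : ∀ b ∈ Algebra.adjoin ℂ (dg 1 : Set H),
      (∀ a ∈ Algebra.adjoin ℂ (dg 1 : Set H), I (a * b) = 0) → b = 0)
    {w : H} (hw : w ∈ dg 1) (hwn : I (w ^ n) ≠ 0) {k : ℕ} (hk : 2 * k ≤ n) {y : H}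
    (hyR : y ∈ Algebra.adjoin ℂ (dg 1 : Set H)) (hy : y ∈ dg (n - k)) :
    ∃! x, (x ∈ Algebra.adjoin ℂ (dg 1 : Set H) ∧ x ∈ dg k) ∧ w ^ (n - 2 * k) * x = y := by
  have h10 : (1 : H) ∈ dg 0 := by rw [hd0]; exact Submodule.mem_span_singleton_self _
  have : SetLike.GradedMonoid (gr dg) := gr_gradedMonoid h10 hmul
  have hint := gr_internal h10 hmul hind
  let : GradedAlgebra (gr dg) := hint.gradedAlgebra
  have g0 := gr_zero hd0
  have gtop := gr_top hbot
  let w' : Algebra.adjoin ℂ (dg 1 : Set H) := ⟨w, Algebra.subset_adjoin hw⟩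
  have hw' : w' ∈ gr dg 1 := hw
  have hw'n : w' ^ n ≠ 0 := by
    intro h
    apply hwn
    have : w ^ n = ((w' ^ n : Algebra.adjoin ℂ (dg 1 : Set H)) : H) := rfl
    rw [this, h, Subalgebra.coe_zero, map_zero]
  have hinj := hard_lefschetz g0 gr_adjoin gtop hSS hw' hw'n k hk
  -- the multiplication map
  have hdeg : ∀ x ∈ gr dg k, w' ^ (n - 2 * k) * x ∈ gr dg (n - k) := by
    intro x hx
    have h1 : w' ^ (n - 2 * k) ∈ gr dg ((n - 2 * k) • 1) := SetLike.pow_mem_graded _ hw'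
    have h2 := SetLike.mul_mem_graded h1 hx
    have e : (n - 2 * k) • 1 + k = n - k := by
      rw [smul_eq_mul, mul_one]; omega
    rwa [e] at h2
  let μ : gr dg k →ₗ[ℂ] gr dg (n - k) :=
    ((LinearMap.mulLeft ℂ (w' ^ (n - 2 * k))).comp (gr dg k).subtype).codRestrict _
      (fun x => hdeg x x.2)
  have hμ : Function.Injective μ := by
    rw [← LinearMap.ker_eq_bot, eq_bot_iff]
    intro x hx
    rw [Submodule.mem_bot]
    refine Subtype.ext (hinj x x.2 ?_)
    exact congrArg Subtype.val (LinearMap.mem_ker.1 hx)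
  have hdim : Module.finrank ℂ (gr dg k) = Module.finrank ℂ (gr dg (n - k)) := by
    apply le_antisymm
    · exact finrank_gr_le h10 hmul I hI hPD (by omega)
    · have := finrank_gr_le h10 hmul I hI hPD (k := n - k) (by omega)
      have e : n - (n - k) = k := by omega
      rwa [e] at this
  have hμs : Function.Surjective μ := by
    rw [← LinearMap.range_eq_top]
    apply Submodule.eq_top_of_finrank_eq
    rw [LinearMap.finrank_range_of_inj hμ, hdim]
  obtain ⟨x, hx⟩ := hμs ⟨⟨y, hyR⟩, hy⟩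
  have hx' : w ^ (n - 2 * k) * ((x : Algebra.adjoin ℂ (dg 1 : Set H)) : H) = y :=
    congrArg (fun z => ((z : Algebra.adjoin ℂ (dg 1 : Set H)) : H))
      (congrArg Subtype.val hx)
  refine ⟨x.1, ⟨⟨x.1.2, x.2⟩, hx'⟩, ?_⟩
  rintro z ⟨⟨hzR, hz⟩, hz'⟩
  have h3 : (⟨z, hzR⟩ : Algebra.adjoin ℂ (dg 1 : Set H)) - x.1 = 0 := by
    refine hinj _ (Submodule.sub_mem _ hz x.2) (Subtype.ext ?_)
    change w ^ (n - 2 * k) * (z - ((x : Algebra.adjoin ℂ (dg 1 : Set H)) : H)) = 0
    rw [mul_sub, hz', hx', sub_self]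
  exact congrArg Subtype.val (sub_eq_zero.1 h3)

end consequences

end Pool.Agent.KS6_76.GWJ
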